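import Pool.Agent.V5helper50.MQ.Rk
import Pool.Agent.R413.SM.Law

/-!
# The joint law over a real multiquadratic field
-/

set_option autoImplicit false
set_option linter.unusedSectionVars false

open Filter Topology

namespace Pool.Agent.V5helper50.MQ

open scoped symmDiff
open Pool.Agent.R413.SQ (Joint.tw Joint.ac_tw Joint.adm_tw Joint.tw_pf Joint.num Joint.law Joint.low)
open Pool.Agent.Y703.CQ (c2)
open Pool.Agent.Results.MP_4a9ea6_nt.TwoPartTwistsX49 (Adm mat)

lemma tw_twn {M D : ℕ} (hM : Cl M) (hD : Cl D) : Joint.tw M D = twn M.primeFactors D := by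
  rw [(Joint.ac_tw hM hD).1, symmDiff_comm]
  rfl

lemma cl_tw {M D : ℕ} (hM : Cl M) (hD : Cl D) : Cl (Joint.tw M D) := Joint.adm_tw hM hD

lemma pf_tw {M D : ℕ} (hM : Cl M) (hD : Cl D) :
    (Joint.tw M D).primeFactors = M.primeFactors ∆ D.primeFactors := by
  rw [Joint.tw_pf hM hD, symmDiff_comm]

lemma cl_ext {M D : ℕ} (hM : Cl M) (hD : Cl D) (h : M.primeFactors = D.primeFactors) : M = D := by
  rw [← hM.prod, ← hD.prod, h]

lemma cl_one : Cl 1 := ⟨squarefree_one, by simp⟩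

lemma tw_comm {M D : ℕ} (hM : Cl M) (hD : Cl D) : Joint.tw M D = Joint.tw D M :=
  cl_ext (cl_tw hM hD) (cl_tw hD hM) (by rw [pf_tw hM hD, pf_tw hD hM, symmDiff_comm])

lemma tw_assoc {A M D : ℕ} (hA : Cl A) (hM : Cl M) (hD : Cl D) :
    Joint.tw A (Joint.tw M D) = Joint.tw (Joint.tw A M) D :=
  cl_ext (cl_tw hA (cl_tw hM hD)) (cl_tw (cl_tw hA hM) hD) (by
    rw [pf_tw hA (cl_tw hM hD), pf_tw hM hD, pf_tw (cl_tw hA hM) hD, pf_tw hA hM, symmDiff_assoc])

lemma tw_self {M : ℕ} (hM : Cl M) : Joint.tw M M = 1 :=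
  cl_ext (cl_tw hM hM) cl_one (by rw [pf_tw hM hM, symmDiff_self]; simp)

lemma tw_one {M : ℕ} (hM : Cl M) : Joint.tw M 1 = M :=
  cl_ext (cl_tw hM cl_one) hM (by rw [pf_tw hM cl_one]; simp)

lemma one_tw {M : ℕ} (hM : Cl M) : Joint.tw 1 M = M := by
  rw [tw_comm cl_one hM, tw_one hM]

lemma tw_tw {M D : ℕ} (hM : Cl M) (hD : Cl D) : Joint.tw M (Joint.tw M D) = D := by
  rw [tw_assoc hM hM hD, tw_self hM, one_tw hD]

lemma sq_tw {F : IntermediateField ℚ ℂ} {M D : ℕ} (hM : Cl M) (hD : Cl D) (h1 : Sq F M)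
    (h2 : Sq F D) : Sq F (Joint.tw M D) := by
  rw [tw_twn hM hD]
  exact sq_symm hM.ps hD.ps (by rwa [hM.prod]) (by rwa [hD.prod])

/-- the numbers of the class with a square root in `F` -/
noncomputable def AF (S : Finset ℕ) (F : IntermediateField ℚ ℂ) : Finset ℕ :=
  (XF F (S0 S)).image fun T => ∏ q ∈ T, q

open Classical in
/-- the indicator -/
noncomputable def ind (p : Prop) : ℝ := if p then 1 else 0

lemma ind_true {p : Prop} (h : p) : ind p = 1 := if_pos h

lemma ind_false {p : Prop} (h : ¬ p) : ind p = 0 := if_neg h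

open Classical in
lemma num_congr {Q R : ℕ → Prop} (h : ∀ D, Adm D → (Q D ↔ R D)) (X : ℕ) :
    Joint.num Q X = Joint.num R X := by
  unfold Joint.num
  refine congrArg Finset.card (Finset.filter_congr fun D _ => ?_)
  exact and_congr_right fun hD => h D hD

section
variable {S : Finset ℕ} (hS : ∀ m ∈ S, Cl m) (F : IntermediateField ℚ ℂ) (hF : F = mqn S)
include hS hF

lemma mem_AF {m : ℕ} : m ∈ AF S F ↔ Cl m ∧ Sq F m := by
  unfold AF
  rw [Finset.mem_image]
  constructor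
  · rintro ⟨T, hT, rfl⟩
    obtain ⟨h1, h2⟩ := mem_XF.1 hT
    exact ⟨((ps_S0 hS).mono h1).cl.1, h2⟩
  · rintro ⟨h1, h2⟩
    exact ⟨m.primeFactors, (sq_iff hS F hF h1).1 h2, h1.prod⟩

lemma card_AF : (AF S F).card = Module.finrank ℚ F := by
  unfold AF
  rw [Finset.card_image_of_injOn, card_XF hS F hF]
  intro T hT T' hT' h
  have h1 := ((ps_S0 hS).mono (mem_XF.1 hT).1).cl.2
  have h2 := ((ps_S0 hS).mono (mem_XF.1 hT').1).cl.2
  rw [← h1, ← h2]
  exact congrArg Nat.primeFactors h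

/-- the condition for the curve `E_M` over `F` -/
def Gf (F : IntermediateField ℚ ℂ) (M : ℕ) : Prop :=
  ∀ m, Cl m → Sq F m → (mat (Joint.tw m M)).det ≠ 0

omit hS hF in
lemma gf_mono {F F' : IntermediateField ℚ ℂ} (h : F ≤ F') {M : ℕ} (hG : Gf F' M) : Gf F M :=
  fun m hm ⟨z, hz, hz2⟩ => hG m hm ⟨z, h hz, hz2⟩

lemma gf_iff {M : ℕ} : Gf F M ↔ ∀ m ∈ AF S F, (mat (Joint.tw m M)).det ≠ 0 := by
  unfold Gf
  constructor
  · intro h m hm
    obtain ⟨h1, h2⟩ := (mem_AF hS F hF).1 hm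
    exact h m h1 h2
  · intro h m h1 h2
    exact h m ((mem_AF hS F hF).2 ⟨h1, h2⟩)

/-- the twists of the elements of `T` -/
noncomputable def BF (S : Finset ℕ) (F : IntermediateField ℚ ℂ) (T : Finset ℕ) : Finset ℕ :=
  ((AF S F) ×ˢ T).image fun x => Joint.tw x.1 x.2

lemma card_BF {T : Finset ℕ} (hT : ∀ M ∈ T, Cl M)
    (hTF : ∀ M ∈ T, ∀ M' ∈ T, Sq F (Joint.tw M M') → M = M') :
    (BF S F T).card = Module.finrank ℚ F * T.card := by
  unfold BF
  rw [Finset.card_image_of_injOn, Finset.card_product, card_AF hS F hF]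
  rintro ⟨m, M⟩ h1 ⟨m', M'⟩ h2 h
  have h1' := Finset.mem_product.1 (Finset.mem_coe.1 h1)
  have h2' := Finset.mem_product.1 (Finset.mem_coe.1 h2)
  obtain ⟨a1, a2⟩ := (mem_AF hS F hF).1 h1'.1
  obtain ⟨b1, b2⟩ := (mem_AF hS F hF).1 h2'.1
  have hM := hT M h1'.2
  have hM' := hT M' h2'.2
  have h' : Joint.tw m M = Joint.tw m' M' := h
  have h3 : Joint.tw M M' = Joint.tw m m' := by
    have h4 : Joint.tw m (Joint.tw m M) = Joint.tw m (Joint.tw m' M') := by rw [h']
    rw [tw_tw a1 hM] at h4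
    rw [h4, tw_assoc a1 b1 hM', tw_comm (cl_tw (cl_tw a1 b1) hM') hM',
      tw_comm (cl_tw a1 b1) hM', tw_tw hM' (cl_tw a1 b1)]
  have h5 : M = M' := hTF M h1'.2 M' h2'.2 (by rw [h3]; exact sq_tw a1 b1 a2 b2)
  subst h5
  have h6 : Joint.tw m m' = 1 := by rw [← h3, tw_self hM]
  have h7 : m' = m := by
    have h8 := tw_tw a1 b1
    rw [h6, tw_one a1] at h8
    exact h8.symm
  rw [h7]

lemma all_iff {T : Finset ℕ} (hT : ∀ M ∈ T, Cl M) {D : ℕ} (hD : Cl D) :
    (∀ M ∈ T, Gf F (Joint.tw M D)) ↔ ∀ N ∈ BF S F T, (mat (Joint.tw N D)).det ≠ 0 := by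
  unfold BF
  constructor
  · intro h N hN
    obtain ⟨⟨m, M⟩, hx, rfl⟩ := Finset.mem_image.1 hN
    obtain ⟨h1, h2⟩ := Finset.mem_product.1 hx
    obtain ⟨a1, a2⟩ := (mem_AF hS F hF).1 h1
    have h3 := h M h2 m a1 a2
    rwa [tw_assoc a1 (hT M h2) hD] at h3
  · intro h M hM m a1 a2
    rw [tw_assoc a1 (hT M hM) hD]
    exact h _ (Finset.mem_image.2 ⟨(m, M), Finset.mem_product.2 ⟨(mem_AF hS F hF).2 ⟨a1, a2⟩, hM⟩,
      rfl⟩)

lemma cl_BF {T : Finset ℕ} (hT : ∀ M ∈ T, Cl M) : ∀ N ∈ BF S F T, Cl N := by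
  intro N hN
  obtain ⟨⟨m, M⟩, hx, rfl⟩ := Finset.mem_image.1 hN
  obtain ⟨h1, h2⟩ := Finset.mem_product.1 hx
  exact cl_tw ((mem_AF hS F hF).1 h1).1 (hT M h2)

/-- all the conditions at once -/
theorem law_all {T : Finset ℕ} (hT : ∀ M ∈ T, Cl M)
    (hTF : ∀ M ∈ T, ∀ M' ∈ T, Sq F (Joint.tw M M') → M = M') :
    Tendsto (fun X : ℕ => (Joint.num (fun D => ∀ M ∈ T, Gf F (Joint.tw M D)) X : ℝ) /
      (Joint.num (fun _ => True) X : ℝ)) atTop (𝓝 ((c2 ^ Module.finrank ℚ F) ^ T.card)) := by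
  have h := Joint.law (T := BF S F T) (V := BF S F T) (cl_BF hS F hF hT) subset_rfl
  rw [Finset.sdiff_self, Finset.card_empty, pow_zero, mul_one, card_BF hS F hF hT hTF, pow_mul] at h
  refine h.congr fun X => ?_
  rw [num_congr (fun D hD => ?_) X]
  rw [all_iff hS F hF hT hD]
  exact forall₂_congr fun N hN => ⟨fun h => h.2 hN, fun h => ⟨fun _ => hN, fun _ => h⟩⟩

omit hS hF in
/-- inclusion and exclusion -/
lemma incl_excl (T V : Finset ℕ) (hV : V ⊆ T) (p : ℕ → Prop) :
    ind (∀ M ∈ T, (p M ↔ M ∈ V)) =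
      ∑ W ∈ (T \ V).powerset, (-1 : ℝ) ^ W.card * ind (∀ M ∈ V ∪ W, p M) := by
  have h1 : ∏ M ∈ T \ V, (1 + (-1) * ind (p M)) =
      ∑ W ∈ (T \ V).powerset, ∏ M ∈ W, ((-1) * ind (p M)) :=
    Finset.prod_one_add _
  have hall : ∀ (U : Finset ℕ) (q : ℕ → Prop), ∏ M ∈ U, ind (q M) = ind (∀ M ∈ U, q M) := by
    intro U q
    by_cases h : ∀ M ∈ U, q M
    · rw [ind_true h]
      exact Finset.prod_eq_one fun M hM => ind_true (h M hM)
    · rw [ind_false h]
      push Not at h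
      obtain ⟨M, hM, hq⟩ := h
      exact Finset.prod_eq_zero hM (ind_false hq)
  have h2 : ∀ W ∈ (T \ V).powerset, (-1 : ℝ) ^ W.card * ind (∀ M ∈ V ∪ W, p M) =
      (∏ M ∈ V, ind (p M)) * ∏ M ∈ W, ((-1) * ind (p M)) := by
    intro W hW
    have hd : Disjoint V W := by
      rw [Finset.mem_powerset] at hW
      exact Finset.disjoint_of_subset_right hW Finset.disjoint_sdiff
    rw [← hall, Finset.prod_union hd, Finset.prod_mul_distrib, Finset.prod_const]
    ring
  rw [Finset.sum_congr rfl h2, ← Finset.mul_sum, ← h1, hall]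
  have h3 : ∏ M ∈ T \ V, (1 + (-1) * ind (p M)) = ind (∀ M ∈ T \ V, ¬ p M) := by
    rw [← hall]
    refine Finset.prod_congr rfl fun M _ => ?_
    by_cases h : p M
    · rw [ind_true h, ind_false (not_not.2 h)]
      norm_num
    · rw [ind_false h, ind_true h]
      norm_num
  rw [h3]
  by_cases h : ∀ M ∈ T, (p M ↔ M ∈ V)
  · have h5 : ∀ M ∈ V, p M := fun M hM => (h M (hV hM)).2 hM
    have h6 : ∀ M ∈ T \ V, ¬ p M := fun M hM hp => by
      rw [Finset.mem_sdiff] at hM
      exact hM.2 ((h M hM.1).1 hp)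
    rw [ind_true h, ind_true h5, ind_true h6, mul_one]
  · rw [ind_false h]
    by_cases h5 : ∀ M ∈ V, p M
    · have h6 : ¬ ∀ M ∈ T \ V, ¬ p M := fun h6 => h fun M hM => by
        by_cases hMV : M ∈ V
        · exact ⟨fun _ => hMV, fun _ => h5 M hMV⟩
        · exact ⟨fun hp => absurd hp (h6 M (Finset.mem_sdiff.2 ⟨hM, hMV⟩)),
            fun h7 => absurd h7 hMV⟩
      rw [ind_false h6, mul_zero]
    · rw [ind_false h5, zero_mul]

omit hS hF in
open Classical in
lemma num_sum (Q : ℕ → Prop) (X : ℕ) : (Joint.num Q X : ℝ) =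
    ∑ D ∈ (Finset.Icc 1 X).filter fun D => Adm D, ind (Q D) := by
  unfold Joint.num ind
  rw [Finset.sum_ite, Finset.sum_const_zero, add_zero, Finset.sum_const, nsmul_eq_mul, mul_one,
    Finset.filter_filter]

/-- **the joint law over `F`** -/
theorem law_F {T V : Finset ℕ} (hT : ∀ M ∈ T, Cl M) (hV : V ⊆ T)
    (hTF : ∀ M ∈ T, ∀ M' ∈ T, Sq F (Joint.tw M M') → M = M') :
    Tendsto (fun X : ℕ => (Joint.num (fun D => ∀ M ∈ T, (Gf F (Joint.tw M D) ↔ M ∈ V)) X : ℝ) /
      (Joint.num (fun _ => True) X : ℝ)) atTop (𝓝 ((c2 ^ Module.finrank ℚ F) ^ V.card *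
        (1 - c2 ^ Module.finrank ℚ F) ^ (T \ V).card)) := by
  set θ : ℝ := c2 ^ Module.finrank ℚ F with hθ
  have h1 : ∀ X : ℕ, (Joint.num (fun D => ∀ M ∈ T, (Gf F (Joint.tw M D) ↔ M ∈ V)) X : ℝ) =
      ∑ W ∈ (T \ V).powerset, (-1 : ℝ) ^ W.card *
        (Joint.num (fun D => ∀ M ∈ V ∪ W, Gf F (Joint.tw M D)) X : ℝ) := by
    intro X
    rw [num_sum]
    simp_rw [num_sum, Finset.mul_sum]
    rw [Finset.sum_comm]
    exact Finset.sum_congr rfl fun D _ => incl_excl T V hV (fun M => Gf F (Joint.tw M D))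
  have h2 : Tendsto (fun X : ℕ => ∑ W ∈ (T \ V).powerset, (-1 : ℝ) ^ W.card *
      ((Joint.num (fun D => ∀ M ∈ V ∪ W, Gf F (Joint.tw M D)) X : ℝ) /
        (Joint.num (fun _ => True) X : ℝ))) atTop (𝓝 (∑ W ∈ (T \ V).powerset,
          (-1 : ℝ) ^ W.card * θ ^ (V ∪ W).card)) := by
    refine tendsto_finsetSum _ fun W hW => ?_
    refine Tendsto.const_mul _ ?_
    have hsub : V ∪ W ⊆ T := by
      refine Finset.union_subset hV ?_
      exact (Finset.mem_powerset.1 hW).trans Finset.sdiff_subset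
    exact law_all hS F hF (fun M hM => hT M (hsub hM)) fun M hM M' hM' =>
      hTF M (hsub hM) M' (hsub hM')
  have h3 : ∑ W ∈ (T \ V).powerset, (-1 : ℝ) ^ W.card * θ ^ (V ∪ W).card =
      θ ^ V.card * (1 - θ) ^ (T \ V).card := by
    have h4 : ∀ W ∈ (T \ V).powerset, (-1 : ℝ) ^ W.card * θ ^ (V ∪ W).card =
        θ ^ V.card * ∏ M ∈ W, (-1 * θ) := by
      intro W hW
      have hd : Disjoint V W := by
        rw [Finset.mem_powerset] at hW
        exact Finset.disjoint_of_subset_right hW Finset.disjoint_sdiff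
      rw [Finset.card_union_of_disjoint hd, Finset.prod_const, pow_add, mul_pow]
      ring
    rw [Finset.sum_congr rfl h4, ← Finset.mul_sum, ← Finset.prod_one_add, Finset.prod_const]
    have h5 : 1 + -1 * θ = 1 - θ := by ring
    rw [h5]
  rw [h3] at h2
  refine h2.congr fun X => ?_
  rw [h1, Finset.sum_div]
  refine Finset.sum_congr rfl fun W _ => ?_
  rw [mul_div_assoc]

/-- **quadratic extensions** -/
theorem quad {D : ℕ} (hD : Cl D) (F' : IntermediateField ℚ ℂ) {z : ℂ} (hz : z ^ 2 = (D : ℂ))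
    (hF' : F' = F ⊔ IntermediateField.adjoin ℚ {z}) {m : ℕ} (hm : Cl m) :
    Sq F' m ↔ Sq F m ∨ Sq F (Joint.tw m D) := by
  classical
  have hle : F ≤ F' := by rw [hF']; exact le_sup_left
  have hzF' : z ∈ F' := by
    rw [hF']
    exact (le_sup_right : _ ≤ F ⊔ IntermediateField.adjoin ℚ {z})
      (IntermediateField.mem_adjoin_simple_self ℚ z)
  have hSD : Sq F' D := ⟨z, hzF', hz⟩
  have hup : ∀ {k : ℕ}, Sq F k → Sq F' k := fun ⟨w, hw, hw2⟩ => ⟨w, hle hw, hw2⟩
  constructor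
  · intro hsq
    by_cases hSF : Sq F D
    · left
      have hzF : z ∈ F := by
        obtain ⟨w, hw, hw2⟩ := hSF
        rcases sq_eq_sq_iff_eq_or_eq_neg.1 (hz.trans hw2.symm) with h | h
        · rw [h]; exact hw
        · rw [h]; exact neg_mem hw
      have : F' = F := by
        rw [hF']
        exact sup_eq_left.2 ((IntermediateField.adjoin_simple_le_iff).2 hzF)
      rwa [this] at hsq
    · -- counting
      have hS' : ∀ m ∈ insert D S, Cl m := by
        intro k hk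
        rcases Finset.mem_insert.1 hk with rfl | hk
        · exact hD
        · exact hS k hk
      have hF'' : F' = mqn (insert D S) := by rw [hF', hF, mqn_insert S D hz]
      have hfin' : FiniteDimensional ℚ F' := by
        rw [hF'']
        exact fin_mqn _
      have hfin : FiniteDimensional ℚ F := by
        rw [hF]
        exact fin_mqn _
      set B : Finset ℕ := AF S F ∪ (AF S F).image (fun k => Joint.tw k D) with hB
      have hsub : B ⊆ AF (insert D S) F' := by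
        intro k hk
        rw [mem_AF hS' F' hF'']
        rcases Finset.mem_union.1 hk with h | h
        · obtain ⟨h1, h2⟩ := (mem_AF hS F hF).1 h
          exact ⟨h1, hup h2⟩
        · obtain ⟨l, hl, rfl⟩ := Finset.mem_image.1 h
          obtain ⟨h1, h2⟩ := (mem_AF hS F hF).1 hl
          exact ⟨cl_tw h1 hD, sq_tw h1 hD (hup h2) hSD⟩
      have hcB : B.card = 2 * Module.finrank ℚ F := by
        have hd : Disjoint (AF S F) ((AF S F).image (fun k => Joint.tw k D)) := by
          rw [Finset.disjoint_left]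
          intro k hk hk'
          obtain ⟨l, hl, hlk⟩ := Finset.mem_image.1 hk'
          obtain ⟨h1, h2⟩ := (mem_AF hS F hF).1 hl
          obtain ⟨h3, h4⟩ := (mem_AF hS F hF).1 hk
          apply hSF
          have h5 : Joint.tw l k = D := by rw [← hlk, tw_tw h1 hD]
          rw [← h5]
          exact sq_tw h1 h3 h2 h4
        rw [hB, Finset.card_union_of_disjoint hd, Finset.card_image_of_injOn, card_AF hS F hF]
        · ring
        · intro k hk l hl hkl
          obtain ⟨h1, -⟩ := (mem_AF hS F hF).1 hk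
          obtain ⟨h3, -⟩ := (mem_AF hS F hF).1 hl
          have h5 : Joint.tw D (Joint.tw D k) = Joint.tw D (Joint.tw D l) := by
            rw [tw_comm hD h1, tw_comm hD h3]
            exact congrArg _ hkl
          rwa [tw_tw hD h1, tw_tw hD h3] at h5
      have hle2 : (AF (insert D S) F').card ≤ B.card := by
        rw [card_AF hS' F' hF'', hcB, hF']
        have hfz : FiniteDimensional ℚ (IntermediateField.adjoin ℚ {z} : IntermediateField ℚ ℂ) :=
          IntermediateField.adjoin.finiteDimensional ⟨Polynomial.X ^ 2 - Polynomial.C (D : ℚ),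
            Polynomial.monic_X_pow_sub_C _ (by norm_num), by
              rw [Polynomial.eval₂_sub, Polynomial.eval₂_pow, Polynomial.eval₂_X,
                Polynomial.eval₂_C, hz, map_natCast, sub_self]⟩
        have h2 : Module.finrank ℚ (IntermediateField.adjoin ℚ {z} : IntermediateField ℚ ℂ) ≤ 2 := by
          rw [IntermediateField.adjoin.finrank (x := z) ⟨Polynomial.X ^ 2 - Polynomial.C (D : ℚ),
            Polynomial.monic_X_pow_sub_C _ (by norm_num), by
              rw [Polynomial.eval₂_sub, Polynomial.eval₂_pow, Polynomial.eval₂_X,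
                Polynomial.eval₂_C, hz, map_natCast, sub_self]⟩]
          have h3 : (Polynomial.X ^ 2 - Polynomial.C (D : ℚ)) ≠ 0 :=
            Polynomial.X_pow_sub_C_ne_zero (by norm_num) _
          refine (Polynomial.natDegree_le_of_dvd (minpoly.dvd ℚ z ?_) h3).trans ?_
          · rw [map_sub, map_pow, Polynomial.aeval_X, Polynomial.aeval_C, hz, map_natCast, sub_self]
          · exact (Polynomial.natDegree_X_pow_sub_C (n := 2) (r := (D : ℚ))).le
        have h3 := IntermediateField.finrank_sup_le F (IntermediateField.adjoin ℚ {z})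
        calc _ ≤ Module.finrank ℚ F * _ := h3
          _ ≤ Module.finrank ℚ F * 2 := Nat.mul_le_mul_left _ h2
          _ = 2 * Module.finrank ℚ F := mul_comm _ _
      have heq := Finset.eq_of_subset_of_card_le hsub hle2
      have hmm : m ∈ B := by
        rw [heq, mem_AF hS' F' hF'']
        exact ⟨hm, hsq⟩
      rcases Finset.mem_union.1 hmm with h | h
      · exact Or.inl ((mem_AF hS F hF).1 h).2
      · obtain ⟨l, hl, hlm⟩ := Finset.mem_image.1 h
        obtain ⟨h1, h2⟩ := (mem_AF hS F hF).1 hl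
        right
        rw [← hlm, tw_comm (cl_tw h1 hD) hD, tw_comm h1 hD, tw_tw hD h1]
        exact h2
  · rintro (h | h)
    · exact hup h
    · have h1 := sq_tw hD (cl_tw hm hD) hSD (hup h)
      rwa [tw_comm hm hD, tw_tw hD hm] at h1

/-- the condition over a quadratic extension -/
theorem gf_quad {D : ℕ} (hD : Cl D) (F' : IntermediateField ℚ ℂ) {z : ℂ} (hz : z ^ 2 = (D : ℂ))
    (hF' : F' = F ⊔ IntermediateField.adjoin ℚ {z}) {M : ℕ} (hM : Cl M) :
    Gf F' M ↔ Gf F M ∧ Gf F (Joint.tw M D) := by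
  have hle : F ≤ F' := by rw [hF']; exact le_sup_left
  constructor
  · intro h
    refine ⟨gf_mono hle h, fun m hm hsq => ?_⟩
    have h1 := h (Joint.tw m D) (cl_tw hm hD) ((quad hS F hF hD F' hz hF' (cl_tw hm hD)).2
      (Or.inr (by rw [← tw_assoc hm hD hD, tw_self hD, tw_one hm]; exact hsq)))
    rwa [← tw_assoc hm hD hM, tw_comm hD hM] at h1
  · rintro ⟨h1, h2⟩ m hm hsq
    rcases (quad hS F hF hD F' hz hF' hm).1 hsq with h | h
    · exact h1 m hm h
    · have h3 := h2 (Joint.tw m D) (cl_tw hm hD) h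
      rwa [tw_assoc (cl_tw hm hD) hM hD, tw_comm (cl_tw (cl_tw hm hD) hM) hD,
        tw_comm (cl_tw hm hD) hM, tw_assoc hM hm hD, tw_comm (cl_tw hM hm) hD, tw_tw hD (cl_tw hM hm),
        tw_comm hM hm] at h3

end

end Pool.Agent.V5helper50.MQ
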