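import Pool.Agent.Y18.NF.Tr

/-!
# The characters of a real multiquadratic field with ramified primes `1` modulo `4`
-/

set_option autoImplicit false
set_option linter.unusedSectionVars false

namespace Pool.Agent.V5helper50.MQ

open NumberField IsDedekindDomain H300.HW IsCyclotomicExtension.Rat
open scoped symmDiff
open Pool.Agent.Y18.BSD Pool.Agent.Y18.NF
open Pool.Agent.Y702.L (pv local_quad)

/-- the finite sets of primes `1` modulo `4` -/
def PS (T : Finset ℕ) : Prop := ∀ q ∈ T, q.Prime ∧ q % 4 = 1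

lemma PS.mono {S T : Finset ℕ} (h : PS T) (hS : S ⊆ T) : PS S := fun q hq => h q (hS hq)

lemma PS.two {T : Finset ℕ} (h : PS T) : ∀ q ∈ T, q.Prime ∧ q ≠ 2 := fun q hq =>
  ⟨(h q hq).1, by
    rintro rfl
    have := (h 2 hq).2
    omega⟩

lemma PS.symm {S T : Finset ℕ} (hS : PS S) (hT : PS T) : PS (S ∆ T) := by
  intro q hq
  rcases Finset.mem_symmDiff.1 hq with h | h
  · exact hS q h.1
  · exact hT q h.1

lemma PS.disc {T : Finset ℕ} (h : PS T) : disc T = ((∏ q ∈ T, q : ℕ) : ℤ) := by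
  unfold Pool.Agent.Y18.BSD.disc
  rw [Nat.cast_prod]
  refine Finset.prod_congr rfl fun q hq => ?_
  have h1 : Even ((q - 1) / 2) := by
    have := (h q hq).2
    rw [Nat.even_iff]
    omega
  rw [h1.neg_one_pow, one_mul]

lemma dd_eq (T : Finset ℕ) : dd T = ∏ q ∈ T, q := rfl

section
variable (n : ℕ) [NeZero n] (L : Type) [Field L] [NumberField L] [IsCyclotomicExtension {n} ℚ L]

/-- a character with the values `jc T` -/
lemma exists_ct {T : Finset ℕ} (hT : PS T) (hn : dd T ∣ n) :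
    ∃ χ : DirichletCharacter ℂ n, ∀ u : (ZMod n)ˣ, χ (u : ZMod n) = (jc T u : ℂ) := by
  obtain ⟨ψ, -, hψj⟩ := H385.jac_char (dd T) (dd_odd hT.two) (dd_sqfree fun q hq => (hT q hq).1)
  refine ⟨DirichletCharacter.changeLevel hn ψ, fun u => ?_⟩
  rw [DirichletCharacter.changeLevel_eq_cast_of_dvd]
  have := hψj (u : ZMod n).val
  rw [ZMod.natCast_val] at this
  exact this

lemma jac_zero_iff {T : Finset ℕ} (hT : PS T) {p : ℕ} (hp : p.Prime) :
    (jacobiSym p (dd T) : ℂ) = 0 ↔ p ∈ T := by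
  have h0 : NeZero (dd T) := ⟨dd_ne_zero fun q hq => (hT q hq).1⟩
  rw [Int.cast_eq_zero, jacobiSym.eq_zero_iff_not_coprime, Int.gcd_natCast_natCast]
  constructor
  · intro h1
    have h2 : p ∣ dd T := by
      by_contra h3
      exact h1 ((Nat.Prime.coprime_iff_not_dvd hp).2 h3)
    rw [dd_eq] at h2
    obtain ⟨q, hq, h3⟩ := (Prime.dvd_finsetProd_iff hp.prime _).1 h2
    rwa [(Nat.prime_dvd_prime_iff_eq hp (hT q hq).1).1 h3]
  · intro h1 h2
    exact (Nat.Prime.coprime_iff_not_dvd hp).1 h2 (Finset.dvd_prod_of_mem _ h1)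

lemma jac_inj {T T' : Finset ℕ} (hT : PS T) (hT' : PS T')
    (h : ∀ p : ℕ, p.Prime → (jacobiSym p (dd T) : ℂ) = (jacobiSym p (dd T') : ℂ)) : T = T' := by
  ext q
  constructor
  · intro hq
    have hp := (hT q hq).1
    rw [← jac_zero_iff hT' hp, ← h q hp, jac_zero_iff hT hp]
    exact hq
  · intro hq
    have hp := (hT' q hq).1
    rw [← jac_zero_iff hT hp, h q hp, jac_zero_iff hT' hp]
    exact hq

variable {S0 : Finset ℕ} (h0 : PS S0) (hn : dd S0 ∣ n) {X : Finset (Finset ℕ)}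
  (hXS : ∀ T ∈ X, T ⊆ S0) (hX0 : ∅ ∈ X) (hXc : ∀ S ∈ X, ∀ T ∈ X, S ∆ T ∈ X)
  (F : IntermediateField ℚ L)
  (hF1 : ∀ T ∈ X, ∃ g ∈ F, g ^ 2 = ((disc T : ℤ) : L))
  (hF2 : F ≤ IntermediateField.adjoin ℚ {z : L | ∃ T ∈ X, z ^ 2 = ((disc T : ℤ) : L)})

include h0 hn hXS hX0 hXc hF1 hF2

lemma mem_YY_iff (χ : DirichletCharacter ℂ n) :
    χ ∈ YY n L F ↔ ∃ T ∈ X, ∀ u : (ZMod n)ˣ, χ (u : ZMod n) = (jc T u : ℂ) := by
  classical
  constructor
  · intro hχ
    obtain ⟨T, hT, -, h1⟩ := YY_sub n L (X : Set (Finset ℕ)) S0 h0.two hn (by exact_mod_cast hX0)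
      (fun S hS T hT => by
        have := hXc S (by exact_mod_cast hS) T (by exact_mod_cast hT)
        exact_mod_cast this) F (hF2.trans (IntermediateField.adjoin.mono ℚ _ _ (by
        rintro z ⟨T, hT, hz⟩
        exact ⟨T, by exact_mod_cast hT, hXS T hT, hz⟩))) hχ
    exact ⟨T, by exact_mod_cast hT, h1⟩
  · rintro ⟨T, hT, h1⟩
    rw [mem_YY]
    intro σ hσ
    have hTS := hXS T hT
    have hTp := h0.mono hTS
    obtain ⟨g, hg1, hg2⟩ := gauss_T n L hTp.two
      (fun q hq => (Finset.dvd_prod_of_mem _ (hTS hq)).trans hn)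
    obtain ⟨g', hg'F, hg'⟩ := hF1 T hT
    have hgF : g ∈ F := by
      rcases sq_eq_sq_iff_eq_or_eq_neg.1 (hg1.trans hg'.symm) with h | h
      · rw [h]; exact hg'F
      · rw [h]; exact neg_mem hg'F
    have hfix : σ g = g := (IntermediateField.mem_fixingSubgroup_iff F σ).1 hσ g hgF
    have hg0 : g ≠ 0 := by
      rintro rfl
      rw [zero_pow two_ne_zero] at hg1
      have h2 : disc T = 0 := by exact_mod_cast hg1.symm
      rw [hTp.disc] at h2
      have h3 : ∏ q ∈ T, q ≠ 0 := Finset.prod_ne_zero_iff.2 fun q hq => (hTp q hq).1.ne_zero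
      exact h3 (by exact_mod_cast h2)
    have h2 := hg2 σ
    rw [hfix] at h2
    have h3 : ((jc T (galEquivZMod n L σ) : ℤ) : L) = 1 := by
      have h4 : ((jc T (galEquivZMod n L σ) : ℤ) : L) * g = 1 * g := by rw [← h2, one_mul]
      exact mul_right_cancel₀ hg0 h4
    rw [h1]
    have h5 : jc T (galEquivZMod n L σ) = 1 := by exact_mod_cast h3
    rw [h5, Int.cast_one]

open Classical in
/-- the products over the characters -/
theorem prod_YY {M : Type*} [CommMonoid M] (f : (ℕ → ℂ) → M) :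
    ∏ χ : YY n L F, f (fun p => pv n χ.1 p) =
      ∏ T ∈ X, f (fun p => (jacobiSym p (dd T) : ℂ)) := by
  have hd : ∀ T ∈ X, dd T ∣ n := fun T hT => (dd_dvd (hXS T hT)).trans hn
  have hps : ∀ T ∈ X, PS T := fun T hT => h0.mono (hXS T hT)
  choose! c hc using fun T (hT : T ∈ X) => exists_ct n (hps T hT) (hd T hT)
  have hpv : ∀ T ∈ X, (fun p : ℕ => pv n (c T) p) = fun p : ℕ => (jacobiSym p (dd T) : ℂ) := by
    intro T hT
    funext p
    unfold pv
    exact pv_jac n (hps T hT).two (hd T hT) (hc T hT) p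
  have hcY : ∀ T ∈ X, c T ∈ YY n L F := fun T hT =>
    (mem_YY_iff n L h0 hn hXS hX0 hXc F hF1 hF2 _).2 ⟨T, hT, hc T hT⟩
  symm
  refine Finset.prod_bij (fun T hT => (⟨c T, hcY T hT⟩ : YY n L F)) (fun _ _ => Finset.mem_univ _)
    ?_ ?_ ?_
  · intro T hT T' hT' h
    have h1 : c T = c T' := congrArg Subtype.val h
    have h2 := hpv T hT
    rw [h1, hpv T' hT'] at h2
    exact jac_inj (hps T hT) (hps T' hT') fun p _ => (congrFun h2 p).symm
  · intro χ _
    obtain ⟨T, hT, h1⟩ := (mem_YY_iff n L h0 hn hXS hX0 hXc F hF1 hF2 _).1 χ.2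
    refine ⟨T, hT, Subtype.ext ?_⟩
    apply MulChar.ext
    intro u
    rw [hc T hT, h1]
  · intro T hT
    rw [← hpv T hT]

theorem card_X : X.card = Module.finrank ℚ F := by
  classical
  have h1 := prod_YY n L h0 hn hXS hX0 hXc F hF1 hF2 (fun _ => Multiplicative.ofAdd (1 : ℕ))
  rw [Finset.prod_const, Finset.prod_const] at h1
  have h2 := congrArg Multiplicative.toAdd h1
  rw [toAdd_pow, toAdd_pow, toAdd_ofAdd, smul_eq_mul, smul_eq_mul, mul_one, mul_one,
    Finset.card_univ, ← Nat.card_eq_fintype_card, card_YY] at h2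
  have : IsGalois ℚ L := IsCyclotomicExtension.isGalois {n} ℚ L
  rw [← h2]
  exact (IntermediateField.finrank_eq_fixingSubgroup_index (F := ℚ) (E' := L) F).symm

end

end Pool.Agent.V5helper50.MQ
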