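import Pool.Agent.V5helper50.MQ.Chr

/-!
# Real multiquadratic fields inside the complex numbers
-/

set_option autoImplicit false
set_option linter.unusedSectionVars false

namespace Pool.Agent.V5helper50.MQ

open NumberField IsDedekindDomain H300.HW IsCyclotomicExtension.Rat
open scoped symmDiff
open Pool.Agent.Y18.BSD Pool.Agent.Y18.NF
open Pool.Agent.Y702.L (pv local_quad)

/-- the numbers of the class: squarefree, with prime factors `1` modulo `4` -/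
def Cl (D : ℕ) : Prop := Squarefree D ∧ ∀ p ∈ D.primeFactors, p % 4 = 1

lemma Cl.ps {D : ℕ} (h : Cl D) : PS D.primeFactors := fun q hq =>
  ⟨Nat.prime_of_mem_primeFactors hq, h.2 q hq⟩

lemma Cl.prod {D : ℕ} (h : Cl D) : ∏ q ∈ D.primeFactors, q = D :=
  Nat.prod_primeFactors_of_squarefree h.1

lemma PS.cl {T : Finset ℕ} (h : PS T) : Cl (∏ q ∈ T, q) ∧ (∏ q ∈ T, q).primeFactors = T := by
  have h1 : (∏ q ∈ T, q).primeFactors = T := Nat.primeFactors_prod fun q hq => (h q hq).1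
  refine ⟨⟨?_, ?_⟩, h1⟩
  · exact dd_sqfree fun q hq => (h q hq).1
  · rw [h1]
    exact fun q hq => (h q hq).2

/-- `F` contains a square root of `m` -/
def Sq (F : IntermediateField ℚ ℂ) (m : ℕ) : Prop := ∃ z ∈ F, z ^ 2 = (m : ℂ)

/-- the field generated by the square roots of the elements of `S` -/
noncomputable def mqn (S : Finset ℕ) : IntermediateField ℚ ℂ :=
  IntermediateField.adjoin ℚ {z : ℂ | ∃ m ∈ S, z ^ 2 = (m : ℂ)}

lemma sq_one (F : IntermediateField ℚ ℂ) : Sq F 1 := ⟨1, one_mem F, by norm_num⟩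

lemma sq_symm {F : IntermediateField ℚ ℂ} {S T : Finset ℕ} (hS : PS S) (_hT : PS T)
    (h1 : Sq F (∏ q ∈ S, q)) (h2 : Sq F (∏ q ∈ T, q)) : Sq F (∏ q ∈ S ∆ T, q) := by
  classical
  obtain ⟨z, hz, hz2⟩ := h1
  obtain ⟨w, hw, hw2⟩ := h2
  have hI0 : ((∏ q ∈ S ∩ T, q : ℕ) : ℂ) ≠ 0 :=
    Nat.cast_ne_zero.2 (Finset.prod_ne_zero_iff.2 fun q hq => (hS q (Finset.mem_inter.1 hq).1).1.ne_zero)
  have hpr : (∏ q ∈ S ∆ T, q) * (∏ q ∈ S ∩ T, q) ^ 2 = (∏ q ∈ S, q) * ∏ q ∈ T, q := by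
    have e1 : ∏ q ∈ S, q = (∏ q ∈ S \ T, q) * ∏ q ∈ S ∩ T, q := by
      rw [mul_comm]; exact (Finset.prod_inter_mul_prod_sdiff S T _).symm
    have e2 : ∏ q ∈ T, q = (∏ q ∈ T \ S, q) * ∏ q ∈ S ∩ T, q := by
      rw [mul_comm, Finset.inter_comm]; exact (Finset.prod_inter_mul_prod_sdiff T S _).symm
    have e3 : ∏ q ∈ S ∆ T, q = (∏ q ∈ S \ T, q) * ∏ q ∈ T \ S, q := by
      have : S ∆ T = (S \ T) ∪ (T \ S) := rfl
      rw [this, Finset.prod_union disjoint_sdiff_sdiff]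
    rw [e1, e2, e3]
    ring
  refine ⟨z * w / ((∏ q ∈ S ∩ T, q : ℕ) : ℂ), div_mem (mul_mem hz hw) (natCast_mem F _), ?_⟩
  rw [div_pow, mul_pow, hz2, hw2, div_eq_iff (pow_ne_zero 2 hI0)]
  exact_mod_cast hpr.symm

open Classical in
/-- the sets of primes in `S0` whose product has a square root in `F` -/
noncomputable def XF (F : IntermediateField ℚ ℂ) (S0 : Finset ℕ) : Finset (Finset ℕ) :=
  S0.powerset.filter fun T => Sq F (∏ q ∈ T, q)

lemma mem_XF {F : IntermediateField ℚ ℂ} {S0 T : Finset ℕ} :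
    T ∈ XF F S0 ↔ T ⊆ S0 ∧ Sq F (∏ q ∈ T, q) := by
  classical
  unfold XF
  simp only [Finset.mem_filter, Finset.mem_powerset]

/-- the primes which divide an element of `S` -/
def S0 (S : Finset ℕ) : Finset ℕ := S.biUnion Nat.primeFactors

lemma ps_S0 {S : Finset ℕ} (hS : ∀ m ∈ S, Cl m) : PS (S0 S) := by
  intro q hq
  obtain ⟨m, hm, h⟩ := Finset.mem_biUnion.1 hq
  exact (hS m hm).ps q h

lemma pf_sub {S : Finset ℕ} {m : ℕ} (hm : m ∈ S) : m.primeFactors ⊆ S0 S :=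
  Finset.subset_biUnion_of_mem Nat.primeFactors hm

section
variable {S : Finset ℕ} (hS : ∀ m ∈ S, Cl m) (F : IntermediateField ℚ ℂ) (hF : F = mqn S)
  (n : ℕ) [NeZero n] (L : Type) [Field L] [NumberField L] [IsCyclotomicExtension {n} ℚ L]
  (φ : L →ₐ[ℚ] ℂ)

/-- the square roots come from `L` -/
lemma root_L {T : Finset ℕ} (hT : PS T) (hn : dd T ∣ n) {z : ℂ}
    (hz2 : z ^ 2 = ((∏ q ∈ T, q : ℕ) : ℂ)) :
    ∃ g : L, φ g = z ∧ g ^ 2 = ((disc T : ℤ) : L) := by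
  obtain ⟨g, hg, -⟩ := gauss_T n L hT.two (fun q hq => (Finset.dvd_prod_of_mem _ hq).trans hn)
  have h2 : (φ g) ^ 2 = ((∏ q ∈ T, q : ℕ) : ℂ) := by
    rw [← map_pow, hg, hT.disc]
    simp
  rcases sq_eq_sq_iff_eq_or_eq_neg.1 (hz2.trans h2.symm) with h | h
  · exact ⟨g, h.symm, hg⟩
  · exact ⟨-g, by rw [map_neg, h], by rw [neg_sq, hg]⟩

lemma comap_root {T : Finset ℕ} (hT : PS T) (hn : dd T ∣ n) (h : Sq F (∏ q ∈ T, q)) :
    ∃ g ∈ F.comap φ, g ^ 2 = ((disc T : ℤ) : L) := by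
  obtain ⟨z, hz, hz2⟩ := h
  obtain ⟨g, hg1, hg2⟩ := root_L n L φ hT hn hz2
  refine ⟨g, ?_, hg2⟩
  show φ g ∈ F
  rw [hg1]
  exact hz

include hS hF

lemma sq_mem {m : ℕ} (hm : m ∈ S) : m.primeFactors ∈ XF F (S0 S) := by
  obtain ⟨z, hz⟩ : ∃ z : ℂ, z ^ 2 = (m : ℂ) := IsAlgClosed.exists_pow_nat_eq _ (by norm_num)
  refine mem_XF.2 ⟨pf_sub hm, z, ?_, ?_⟩
  · rw [hF]
    exact IntermediateField.subset_adjoin ℚ _ ⟨m, hm, hz⟩
  · rw [(hS m hm).prod]
    exact hz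

lemma le_map (hn : dd (S0 S) ∣ n) : F ≤ (IntermediateField.adjoin ℚ
    {z : L | ∃ T ∈ XF F (S0 S), z ^ 2 = ((disc T : ℤ) : L)}).map φ := by
  conv_lhs => rw [hF]
  unfold mqn
  rw [IntermediateField.adjoin_map]
  refine IntermediateField.adjoin.mono ℚ _ _ ?_
  rintro z ⟨m, hm, hz⟩
  have hTm := sq_mem hS F hF hm
  obtain ⟨g, hg1, hg2⟩ := root_L n L φ (T := m.primeFactors) (hS m hm).ps
    ((dd_dvd (pf_sub hm)).trans hn) (z := z) (by rw [(hS m hm).prod]; exact hz)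
  exact ⟨g, ⟨_, hTm, hg2⟩, hg1⟩

lemma comap_le (hn : dd (S0 S) ∣ n) : F.comap φ ≤ IntermediateField.adjoin ℚ
    {z : L | ∃ T ∈ XF F (S0 S), z ^ 2 = ((disc T : ℤ) : L)} := by
  intro x hx
  have h2 : φ x ∈ F := hx
  obtain ⟨y, hy, hyx⟩ := le_map hS F hF n L φ hn h2
  have h3 : y = x := φ.toRingHom.injective hyx
  rw [← h3]
  exact hy

/-- the isomorphism -/
theorem exists_iso (hn : dd (S0 S) ∣ n) : Nonempty (F.comap φ ≃ₐ[ℚ] F) := by
  have hr : F ≤ φ.fieldRange := by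
    intro x hx
    obtain ⟨y, -, hyx⟩ := le_map hS F hF n L φ hn hx
    exact ⟨y, hyx⟩
  have h : (F.comap φ).map φ = F := IntermediateField.map_comap_eq_self hr
  exact ⟨(IntermediateField.equivMap _ φ).trans (IntermediateField.equivOfEq h)⟩

lemma comap_hF1 (hn : dd (S0 S) ∣ n) : ∀ T ∈ XF F (S0 S), ∃ g ∈ F.comap φ,
    g ^ 2 = ((disc T : ℤ) : L) := by
  intro T hT
  obtain ⟨h1, h2⟩ := mem_XF.1 hT
  exact comap_root F n L φ ((ps_S0 hS).mono h1) ((dd_dvd h1).trans hn) h2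

end

section
variable {S : Finset ℕ} (hS : ∀ m ∈ S, Cl m) (F : IntermediateField ℚ ℂ) (hF : F = mqn S)

include hS

lemma XF_empty : ∅ ∈ XF F (S0 S) := mem_XF.2 ⟨Finset.empty_subset _, by
  rw [Finset.prod_empty]
  exact sq_one F⟩

lemma XF_symm : ∀ T ∈ XF F (S0 S), ∀ U ∈ XF F (S0 S), T ∆ U ∈ XF F (S0 S) := by
  intro T hT U hU
  obtain ⟨h1, h2⟩ := mem_XF.1 hT
  obtain ⟨h3, h4⟩ := mem_XF.1 hU
  refine mem_XF.2 ⟨?_, sq_symm ((ps_S0 hS).mono h1) ((ps_S0 hS).mono h3) h2 h4⟩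
  intro q hq
  rcases Finset.mem_symmDiff.1 hq with h | h
  · exact h1 h.1
  · exact h3 h.1

include hF

/-- the degree -/
theorem card_XF : (XF F (S0 S)).card = Module.finrank ℚ F := by
  have hn0 : NeZero (dd (S0 S)) := ⟨dd_ne_zero fun q hq => (ps_S0 hS q hq).1⟩
  let L := CyclotomicField (dd (S0 S)) ℚ
  have hcyc : IsCyclotomicExtension {dd (S0 S)} ℚ L := CyclotomicField.isCyclotomicExtension _ ℚ
  let φ : L →ₐ[ℚ] ℂ := IsAlgClosed.lift
  obtain ⟨e⟩ := exists_iso hS F hF (dd (S0 S)) L φ dvd_rfl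
  rw [← e.toLinearEquiv.finrank_eq]
  exact card_X (dd (S0 S)) L (ps_S0 hS) dvd_rfl (fun T hT => (mem_XF.1 hT).1) (XF_empty hS F)
    (XF_symm hS F) (F.comap φ) (comap_hF1 hS F hF _ L φ dvd_rfl) (comap_le hS F hF _ L φ dvd_rfl)

/-- the numbers of the class with a square root in `F` -/
theorem sq_iff {m : ℕ} (hm : Cl m) : Sq F m ↔ m.primeFactors ∈ XF F (S0 S) := by
  classical
  constructor
  · intro hsq
    set U : Finset ℕ := S0 S ∪ m.primeFactors with hU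
    have hUp : PS U := by
      intro q hq
      rcases Finset.mem_union.1 hq with h | h
      · exact ps_S0 hS q h
      · exact hm.ps q h
    have hn0 : NeZero (dd U) := ⟨dd_ne_zero fun q hq => (hUp q hq).1⟩
    let L := CyclotomicField (dd U) ℚ
    have hcyc : IsCyclotomicExtension {dd U} ℚ L := CyclotomicField.isCyclotomicExtension _ ℚ
    let φ : L →ₐ[ℚ] ℂ := IsAlgClosed.lift
    have hSU : S0 S ⊆ U := Finset.subset_union_left
    have hmU : m.primeFactors ⊆ U := Finset.subset_union_right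
    have hn := dd_dvd hSU
    obtain ⟨χ, hχ⟩ := exists_ct (dd U) hm.ps (dd_dvd hmU)
    have hχY : χ ∈ YY (dd U) L (F.comap φ) := by
      rw [mem_YY]
      intro σ hσ
      obtain ⟨g, hg1, hg2⟩ := gauss_T (dd U) L hm.ps.two
        (fun q hq => (Finset.dvd_prod_of_mem _ hq).trans (dd_dvd hmU))
      obtain ⟨g', hg'F, hg'⟩ := comap_root F (dd U) L φ hm.ps (dd_dvd hmU) (by
        rw [hm.prod]; exact hsq)
      have hgF : g ∈ F.comap φ := by
        rcases sq_eq_sq_iff_eq_or_eq_neg.1 (hg1.trans hg'.symm) with h | h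
        · rw [h]; exact hg'F
        · rw [h]; exact neg_mem hg'F
      have hfix : σ g = g := (IntermediateField.mem_fixingSubgroup_iff _ σ).1 hσ g hgF
      have hg0 : g ≠ 0 := by
        rintro rfl
        rw [zero_pow two_ne_zero] at hg1
        have h2 : disc m.primeFactors = 0 := by exact_mod_cast hg1.symm
        rw [hm.ps.disc, hm.prod] at h2
        exact hm.1.ne_zero (by exact_mod_cast h2)
      have h2 := hg2 σ
      rw [hfix] at h2
      have h3 : ((jc m.primeFactors (galEquivZMod (dd U) L σ) : ℤ) : L) = 1 := by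
        have h4 : ((jc m.primeFactors (galEquivZMod (dd U) L σ) : ℤ) : L) * g = 1 * g := by
          rw [← h2, one_mul]
        exact mul_right_cancel₀ hg0 h4
      rw [hχ]
      have h5 : jc m.primeFactors (galEquivZMod (dd U) L σ) = 1 := by exact_mod_cast h3
      rw [h5, Int.cast_one]
    obtain ⟨T, hT, h1⟩ := (mem_YY_iff (dd U) L hUp dvd_rfl (fun T hT => (mem_XF.1 hT).1.trans hSU)
      (XF_empty hS F) (XF_symm hS F) (F.comap φ) (comap_hF1 hS F hF _ L φ hn)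
      (comap_le hS F hF _ L φ hn) χ).1 hχY
    have hTS := (mem_XF.1 hT).1
    have hTp := (ps_S0 hS).mono hTS
    have h2 : m.primeFactors = T := by
      refine jac_inj hm.ps hTp fun p _ => ?_
      rw [← pv_jac (dd U) hm.ps.two (dd_dvd hmU) hχ p,
        ← pv_jac (dd U) hTp.two ((dd_dvd hTS).trans hn) h1 p]
    rw [h2]
    exact hT
  · intro h
    have := (mem_XF.1 h).2
    rwa [hm.prod] at this

end

end Pool.Agent.V5helper50.MQ
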