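import Pool.Agent.V5helper50.MQ.Loc
import Pool.Agent.V5helper50.MQ.Fld

/-!
# The L-function of the twists of `X_0(49)` over real multiquadratic fields
-/

set_option autoImplicit false
set_option linter.unusedSectionVars false

namespace Pool.Agent.V5helper50.MQ

open Pool.Agent.Y698 Pool.Agent.Y698.SG
open NumberField IsDedekindDomain WeierstrassCurve Pool.Agent.W189.NF IsCyclotomicExtension.Rat
open Pool.Agent.H921R2.TatePole Pool.Agent.H82R3.EK
open W165.CE (pw pw_eq pw_luc exists_roots')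
open Pool.Agent.Y18.BSD Pool.Agent.Y18.NF
open H300.HW (YY)
open Pool.Agent.Y702.L (pv local_quad)
open scoped symmDiff

lemma PS.gp {T : Finset ℕ} (h : PS T) : ∀ q ∈ T, Gp q := fun q hq => ⟨(h q hq).1, (h q hq).2⟩

lemma PS.mod {T : Finset ℕ} (h : PS T) : (∏ q ∈ T, q) % 4 = 1 := by
  classical
  induction T using Finset.induction_on with
  | empty => simp
  | insert q T hq ih =>
    rw [Finset.prod_insert hq, Nat.mul_mod, (h q (Finset.mem_insert_self _ _)).2,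
      ih (h.mono (Finset.subset_insert _ _))]

lemma PS.exists {T : Finset ℕ} (h : PS T) : ∃ i : ℕ, ∏ q ∈ T, q = 1 + 4 * i :=
  ⟨(∏ q ∈ T, q) / 4, by have := h.mod; omega⟩

lemma dd_jac {T : Finset ℕ} (hT : PS T) (m : ℤ) :
    (jacobiSym m (dd T) : ℂ) = ∏ q ∈ T, qch q m := by
  classical
  rw [dd_eq]
  induction T using Finset.induction_on with
  | empty => simp
  | insert q T hq ih =>
    have ih' := ih (hT.mono (Finset.subset_insert _ _))
    rw [Finset.prod_insert hq, Finset.prod_insert hq, jacobiSym.mul_right', ← ih']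
    · unfold qch
      push_cast
      rfl
    · exact (hT q (Finset.mem_insert_self _ _)).1.ne_zero
    · exact Finset.prod_ne_zero_iff.2 fun p hp => (hT p (Finset.mem_insert_of_mem hp)).1.ne_zero

lemma qch_zero {q p : ℕ} (hq : q.Prime) (hp : p.Prime) : qch q (p : ℤ) = 0 ↔ q = p := by
  unfold qch
  have h0 : NeZero q := ⟨hq.ne_zero⟩
  rw [Int.cast_eq_zero, jacobiSym.eq_zero_iff_not_coprime, Int.gcd_natCast_natCast]
  constructor
  · intro h
    by_contra h1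
    exact h ((Nat.coprime_primes hp hq).2 (Ne.symm h1))
  · rintro rfl h
    exact (Nat.coprime_primes hp hq).1 h rfl

/-- the product of two quadratic characters -/
lemma qch_symm {T U : Finset ℕ} (hT : PS T) {p : ℕ} (hp : p.Prime)
    (h : p ∈ U → p ∉ T) :
    (∏ q ∈ T, qch q (p : ℤ)) * (∏ q ∈ U, qch q (p : ℤ)) = ∏ q ∈ T ∆ U, qch q (p : ℤ) := by
  classical
  by_cases hpU : p ∈ U
  · have hpT := h hpU
    have h1 : ∏ q ∈ U, qch q (p : ℤ) = 0 :=
      Finset.prod_eq_zero hpU ((qch_zero hp hp).2 rfl)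
    have h2 : ∏ q ∈ T ∆ U, qch q (p : ℤ) = 0 :=
      Finset.prod_eq_zero (Finset.mem_symmDiff.2 (Or.inr ⟨hpU, hpT⟩)) ((qch_zero hp hp).2 rfl)
    rw [h1, h2, mul_zero]
  · have e1 : ∏ q ∈ T, qch q (p : ℤ) =
        (∏ q ∈ T \ U, qch q (p : ℤ)) * ∏ q ∈ T ∩ U, qch q (p : ℤ) := by
      rw [mul_comm]; exact (Finset.prod_inter_mul_prod_sdiff T U _).symm
    have e2 : ∏ q ∈ U, qch q (p : ℤ) =
        (∏ q ∈ U \ T, qch q (p : ℤ)) * ∏ q ∈ T ∩ U, qch q (p : ℤ) := by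
      rw [mul_comm, Finset.inter_comm]; exact (Finset.prod_inter_mul_prod_sdiff U T _).symm
    have e3 : ∏ q ∈ T ∆ U, qch q (p : ℤ) =
        (∏ q ∈ T \ U, qch q (p : ℤ)) * ∏ q ∈ U \ T, qch q (p : ℤ) := by
      have : T ∆ U = (T \ U) ∪ (U \ T) := rfl
      rw [this, Finset.prod_union disjoint_sdiff_sdiff]
    have e4 : (∏ q ∈ T ∩ U, qch q (p : ℤ)) ^ 2 = 1 := by
      refine qprod_sq (fun q hq => (hT q (Finset.mem_inter.1 hq).1).1) fun q hq hd => ?_
      have hqp := (hT q (Finset.mem_inter.1 hq).1).1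
      have h1 : q ∣ p := by exact_mod_cast hd
      rw [(Nat.prime_dvd_prime_iff_eq hqp hp).1 h1] at hq
      exact hpU (Finset.mem_inter.1 hq).2
    rw [e1, e2, e3]
    linear_combination ((∏ q ∈ T \ U, qch q (p : ℤ)) * ∏ q ∈ U \ T, qch q (p : ℤ)) * e4

section transport
variable {K K' : Type} [Field K] [NumberField K] [Field K'] [NumberField K']

lemma nm_plE (e : 𝓞 K ≃+* 𝓞 K') (v : HeightOneSpectrum (𝓞 K)) : nm (plE e v) = nm v :=
  absNorm_plE e v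

lemma below_plE (e : 𝓞 K ≃+* 𝓞 K') (v : HeightOneSpectrum (𝓞 K)) :
    below (plE e v) = below v ∧ deg (plE e v) = deg v := by
  obtain ⟨h1, h2, -⟩ := nm_eq v
  obtain ⟨h3, h4, -⟩ := nm_eq (plE e v)
  rw [nm_plE, h1] at h3
  have h5 : (below v : ℕ) = (below (plE e v) : ℕ) := by
    have h6 : (below v : ℕ) ∣ (below (plE e v) : ℕ) ^ deg (plE e v) := by
      rw [← h3]
      exact dvd_pow_self _ h2.ne'
    exact (Nat.prime_dvd_prime_iff_eq (below v).2 (below (plE e v)).2).1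
      ((below v).2.dvd_of_dvd_pow h6)
  rw [← h5] at h3
  exact ⟨Subtype.ext h5.symm, (Nat.pow_right_injective (below v).2.two_le h3).symm⟩

/-- transport of the places above `p` -/
noncomputable def plp (e : 𝓞 K ≃+* 𝓞 K') (p : Nat.Primes) :
    {v : HeightOneSpectrum (𝓞 K) // below v = p} ≃ {v : HeightOneSpectrum (𝓞 K') // below v = p} :=
  Equiv.subtypeEquiv (plE e) fun v => by rw [(below_plE e v).1]

lemma prod_plp (e : 𝓞 K ≃+* 𝓞 K') (p : Nat.Primes) (f : ℕ → ℂ) :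
    ∏ v : {v : HeightOneSpectrum (𝓞 K) // below v = p}, f (deg v.1) =
      ∏ v : {v : HeightOneSpectrum (𝓞 K') // below v = p}, f (deg v.1) := by
  refine Fintype.prod_equiv (plp e p) _ _ fun v => ?_
  have h3 : deg ((plp e p) v).1 = deg v.1 := (below_plE e v.1).2
  rw [h3]

end transport

section
variable (n : ℕ) [NeZero n] (L : Type) [Field L] [NumberField L] [IsCyclotomicExtension {n} ℚ L]
  {S0 : Finset ℕ} (h0 : PS S0) (hn : dd S0 = n) {X : Finset (Finset ℕ)}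
  (hXS : ∀ T ∈ X, T ⊆ S0) (hX0 : ∅ ∈ X) (hXc : ∀ S ∈ X, ∀ T ∈ X, S ∆ T ∈ X)
  (hXu : ∀ q ∈ S0, ∃ T ∈ X, q ∈ T)
  (F : IntermediateField ℚ L)
  (hF1 : ∀ T ∈ X, ∃ g ∈ F, g ^ 2 = ((disc T : ℤ) : L))
  (hF2 : F ≤ IntermediateField.adjoin ℚ {z : L | ∃ T ∈ X, z ^ 2 = ((disc T : ℤ) : L)})
  (K : Type) [Field K] [NumberField K] (e : F ≃ₐ[ℚ] K)
include h0 hn hXS hX0 hXc hXu hF1 hF2 e

omit hX0 hXc hXu hF1 hF2 hXS in
/-- the unramified primes -/
lemma val_K {p : ℕ} (hp : p.Prime) (hpS : p ∉ S0) (v : HeightOneSpectrum (𝓞 K))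
    (hv : (below v : ℕ) = p) : v.valuation K ((p : ℕ) : K) = WithZero.exp (-1 : ℤ) := by
  let _ : Algebra K L := ((F.val.comp (e.symm : K →ₐ[ℚ] F)) : K →ₐ[ℚ] L).toRingHom.toAlgebra
  refine val_unram n L K ⟨p, hp⟩ ?_ v (Subtype.ext hv)
  intro hdvd
  have h1 : p ∣ dd S0 := by rw [hn]; exact hdvd
  rw [dd_eq] at h1
  obtain ⟨q, hq, h3⟩ := (Prime.dvd_finsetProd_iff hp.prime _).1 h1
  rw [← (Nat.prime_dvd_prime_iff_eq hp (h0 q hq).1).1 h3] at hq
  exact hpS hq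

omit hX0 hXc in
/-- the coefficients of the local factors -/
lemma coeffs_K (p : Nat.Primes) {D j : ℕ} (hD : Cl D) (hj : D = 1 + 4 * j) :
    ∃ T₀ ∈ insert ∅ X, ((p : ℕ) ∈ T₀ ∆ D.primeFactors → (p : ℕ) ∉ S0) ∧
    ∀ v : HeightOneSpectrum (𝓞 K), below v = p →
    ((aV (EX K (j : K)) v : ℤ) : ℂ) = (∏ q ∈ T₀ ∆ D.primeFactors, qch q (p : ℕ)) ^ deg v *
      pw (bc (p : ℕ)) (ec (p : ℕ)) (deg v) ∧
    ((eV (EX K (j : K)) v : ℤ) : ℂ) =
      ((∏ q ∈ T₀ ∆ D.primeFactors, qch q (p : ℕ)) ^ 2 * ec (p : ℕ)) ^ deg v := by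
  classical
  have h7S : 7 ∉ S0 := fun h => by
    have := (h0 7 h).2
    norm_num at this
  have h7 : ∀ v : HeightOneSpectrum (𝓞 K), (below v : ℕ) = 7 →
      v.valuation K ((7 : ℕ) : K) = WithZero.exp (-1 : ℤ) := fun v hv =>
    val_K n L h0 hn F K e (by norm_num) h7S v hv
  by_cases hc : (p : ℕ) ∈ D.primeFactors ∧ (p : ℕ) ∈ S0
  · obtain ⟨T₀, hT₀, hpT⟩ := hXu p hc.2
    have hTp : PS T₀ := h0.mono (hXS T₀ hT₀)
    have hpU : (p : ℕ) ∉ T₀ ∆ D.primeFactors := by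
      rw [Finset.mem_symmDiff]
      rintro (h | h)
      · exact h.2 hc.1
      · exact h.2 hpT
    refine ⟨T₀, Finset.mem_insert_of_mem hT₀, fun h => absurd h hpU, fun v hv => ?_⟩
    set U := T₀ ∆ D.primeFactors with hU
    have hUp : PS U := hTp.symm hD.ps
    obtain ⟨i, hi⟩ := hUp.exists
    have hbU : (below v : ℕ) ∉ U := by rw [hv]; exact hpU
    have hb7 : (below v : ℕ) ≠ 7 := by
      rw [hv]
      intro h
      rw [h] at hc
      exact h7S hc.2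
    obtain ⟨g, hgF, hg⟩ := hF1 T₀ hT₀
    have hI0 : (∏ q ∈ T₀ ∩ D.primeFactors, q : ℕ) ≠ 0 :=
      Finset.prod_ne_zero_iff.2 fun q hq => (hTp q (Finset.mem_inter.1 hq).1).1.ne_zero
    have hT0 : (∏ q ∈ T₀, q : ℕ) ≠ 0 := Finset.prod_ne_zero_iff.2 fun q hq => (hTp q hq).1.ne_zero
    have hpr : (∏ q ∈ U, q) * (∏ q ∈ T₀ ∩ D.primeFactors, q) ^ 2 = (∏ q ∈ T₀, q) * D := by
      have e0 : (∏ q ∈ D.primeFactors, q) = D := hD.prod
      have e1 : ∏ q ∈ T₀, q = (∏ q ∈ T₀ \ D.primeFactors, q) * ∏ q ∈ T₀ ∩ D.primeFactors, q := by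
        rw [mul_comm]; exact (Finset.prod_inter_mul_prod_sdiff T₀ D.primeFactors _).symm
      have e2 : ∏ q ∈ D.primeFactors, q =
          (∏ q ∈ D.primeFactors \ T₀, q) * ∏ q ∈ T₀ ∩ D.primeFactors, q := by
        rw [mul_comm, Finset.inter_comm]
        exact (Finset.prod_inter_mul_prod_sdiff D.primeFactors T₀ _).symm
      have e3 : ∏ q ∈ U, q = (∏ q ∈ T₀ \ D.primeFactors, q) * ∏ q ∈ D.primeFactors \ T₀, q := by
        have : U = (T₀ \ D.primeFactors) ∪ (D.primeFactors \ T₀) := rfl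
        rw [this, Finset.prod_union disjoint_sdiff_sdiff]
      calc (∏ q ∈ U, q) * (∏ q ∈ T₀ ∩ D.primeFactors, q) ^ 2 =
          ((∏ q ∈ T₀ \ D.primeFactors, q) * ∏ q ∈ T₀ ∩ D.primeFactors, q) *
            ((∏ q ∈ D.primeFactors \ T₀, q) * ∏ q ∈ T₀ ∩ D.primeFactors, q) := by rw [e3]; ring
        _ = (∏ q ∈ T₀, q) * D := by rw [← e1, ← e2, e0]
    set gK : K := e ⟨g, hgF⟩ with hgK
    have hgK2 : gK ^ 2 = ((∏ q ∈ T₀, q : ℕ) : K) := by
      have h1 : (⟨g, hgF⟩ : F) ^ 2 = ((disc T₀ : ℤ) : F) := by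
        apply Subtype.ext
        push_cast
        exact hg
      rw [hgK, ← map_pow, h1, map_intCast, hTp.disc]
      simp
    have hIK : ((∏ q ∈ T₀ ∩ D.primeFactors, q : ℕ) : K) ≠ 0 := Nat.cast_ne_zero.2 hI0
    have hz0 : gK / ((∏ q ∈ T₀ ∩ D.primeFactors, q : ℕ) : K) ≠ 0 := by
      refine div_ne_zero ?_ hIK
      intro h
      rw [h, zero_pow two_ne_zero] at hgK2
      exact hT0 (by exact_mod_cast hgK2.symm)
    have hzz : 1 + 4 * (i : K) = (gK / ((∏ q ∈ T₀ ∩ D.primeFactors, q : ℕ) : K)) ^ 2 *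
        (1 + 4 * (j : K)) := by
      have h1 : (1 + 4 * (i : K)) = ((∏ q ∈ U, q : ℕ) : K) := by rw [hi]; push_cast; rfl
      have h2 : (1 + 4 * (j : K)) = ((D : ℕ) : K) := by rw [hj]; push_cast; rfl
      rw [h1, h2, div_pow, hgK2, div_mul_eq_mul_div, eq_div_iff (pow_ne_zero 2 hIK)]
      exact_mod_cast hpr
    obtain ⟨c1, c2⟩ := coeffs_iso v hUp.gp hi hbU hb7 hz0 hzz
    obtain ⟨c3, c4⟩ := coeffsD v hUp.gp hi (fun h => absurd h hb7) (fun q hq h => by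
      rw [h] at hbU
      exact absurd hq hbU)
    rw [c1, c2, c3, c4, hv]
    exact ⟨rfl, rfl⟩
  · refine ⟨∅, Finset.mem_insert_self _ _, ?_, fun v hv => ?_⟩
    · have hb : (∅ : Finset ℕ) ∆ D.primeFactors = D.primeFactors := bot_symmDiff _
      rw [hb]
      exact fun h h' => hc ⟨h, h'⟩
    · have hb : (∅ : Finset ℕ) ∆ D.primeFactors = D.primeFactors := bot_symmDiff _
      rw [hb]
      obtain ⟨c3, c4⟩ := coeffsD (K := K) v hD.ps.gp (hD.prod.trans hj) (h7 v) (fun q hq h => by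
        refine val_K n L h0 hn F K e (hD.ps q hq).1 ?_ v h
        intro hqS
        rw [← h, hv] at hq hqS
        exact hc ⟨hq, hqS⟩)
      rw [c3, c4, hv]
      exact ⟨rfl, rfl⟩

/-- **the product over the places above `p`** -/
theorem prod_K (s : ℂ) (p : Nat.Primes) {D j : ℕ} (hD : Cl D) (hj : D = 1 + 4 * j) :
    ∏ v : {v : HeightOneSpectrum (𝓞 K) // below v = p}, LFD j s v.1 =
      ∏ T ∈ X, EF (∏ q ∈ T ∆ D.primeFactors, qch q (p : ℕ)) s p := by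
  classical
  obtain ⟨T₀, hT₀', hT₁, hc⟩ := coeffs_K n L h0 hn hXS hXu F hF1 hF2 K e p hD hj
  have hT₀ : T₀ ∈ X := by
    rcases Finset.mem_insert.1 hT₀' with h | h
    · rw [h]; exact hX0
    · exact h
  set U := T₀ ∆ D.primeFactors with hU
  have hUp : PS U := (h0.mono (hXS T₀ hT₀)).symm hD.ps
  have eO : 𝓞 F ≃+* 𝓞 K := RingOfIntegers.mapRingEquiv (e : F ≃+* K)
  set ε : ℂ := ∏ q ∈ U, qch q (p : ℕ) with hε
  set Y : ℂ := ε * ((p : ℕ) : ℂ) ^ (-s) with hY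
  set t : ℂ := bc (p : ℕ) with ht
  set u : ℂ := ec (p : ℕ) with hu
  have h1 : ∀ v : {v : HeightOneSpectrum (𝓞 K) // below v = p}, LFD j s v.1 =
      (1 - pw t u (deg v.1) * Y ^ deg v.1 + u ^ deg v.1 * Y ^ (2 * deg v.1))⁻¹ := by
    rintro ⟨v, hv⟩
    obtain ⟨c1, c2⟩ := hc v hv
    unfold LFD
    rw [c1, c2, (nm_eq v).1, Pool.Agent.W164.RC.pow_cpow', hv]
    congr 1
    rw [hY, mul_pow, mul_pow, mul_pow]
    ring
  rw [Finset.prod_congr rfl fun v _ => h1 v, Finset.prod_inv_distrib]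
  have h2 : ∏ v : {v : HeightOneSpectrum (𝓞 K) // below v = p},
      (1 - pw t u (deg v.1) * Y ^ deg v.1 + u ^ deg v.1 * Y ^ (2 * deg v.1)) =
      ∏ v : {v : HeightOneSpectrum (𝓞 F) // below v = p},
      (1 - pw t u (deg v.1) * Y ^ deg v.1 + u ^ deg v.1 * Y ^ (2 * deg v.1)) := by
    exact (prod_plp eO p fun d => (1 - pw t u d * Y ^ d + u ^ d * Y ^ (2 * d))).symm
  rw [h2, local_quad n L F p t u Y]
  have h3 := prod_YY n L h0 hn.dvd hXS hX0 hXc F hF1 hF2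
    (fun g => (1 - g p * t * Y + g p ^ 2 * (u * Y ^ 2)))
  rw [h3, ← Finset.prod_inv_distrib]
  have h4 : ∀ T ∈ X, (1 - (jacobiSym p (dd T) : ℂ) * t * Y +
      (jacobiSym p (dd T) : ℂ) ^ 2 * (u * Y ^ 2))⁻¹ =
      EF (∏ q ∈ (T ∆ T₀) ∆ D.primeFactors, qch q (p : ℕ)) s p := by
    intro T hT
    have hTp := h0.mono (hXS T hT)
    have h5 : (∏ q ∈ T, qch q (p : ℤ)) * ε = ∏ q ∈ (T ∆ T₀) ∆ D.primeFactors, qch q (p : ℤ) := by
      rw [symmDiff_assoc]
      exact qch_symm hTp p.2 fun h h' => hT₁ h (hXS T hT h')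
    have h6 := dd_jac hTp (p : ℤ)
    unfold EF
    rw [h6]
    have h7 : (∏ q ∈ (T ∆ T₀) ∆ D.primeFactors, qch q (((p : ℕ)) : ℤ)) =
      (∏ q ∈ T, qch q (p : ℤ)) * ε := h5.symm
    rw [h7, hY]
    congr 1
    ring
  rw [Finset.prod_congr rfl h4]
  refine Finset.prod_bij' (fun T _ => T ∆ T₀) (fun T _ => T ∆ T₀) (fun T hT => hXc T hT T₀ hT₀)
    (fun T hT => hXc T hT T₀ hT₀) (fun T _ => ?_) (fun T _ => ?_) (fun T _ => rfl)
  · exact symmDiff_symmDiff_cancel_right T₀ T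
  · exact symmDiff_symmDiff_cancel_right T₀ T

/-- **the Euler product over the rational primes** -/
theorem hp_K {s : ℂ} (hs : 2 < s.re) {D j : ℕ} (hD : Cl D) (hj : D = 1 + 4 * j) :
    HasProd (fun p : Nat.Primes => ∏ T ∈ X, EF (∏ q ∈ T ∆ D.primeFactors, qch q (p : ℕ)) s p)
      ((EX K (j : K)).LSeries s) := by
  classical
  have h2 := (LSeries_hasProd (EX K (j : K)) hs).2
  have h3 := (Equiv.sigmaFiberEquiv (below (K := K))).hasProd_iff.2 h2
  have h4 := h3.sigma (g := fun q : Nat.Primes =>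
    ∏ v : {v : HeightOneSpectrum (𝓞 K) // below v = q}, LFD j s v.1) (fun q => hasProd_fintype _)
  simp_rw [prod_K n L h0 hn hXS hX0 hXc hXu F hF1 hF2 K e s _ hD hj] at h4
  exact h4

end

/-- the case of the rational field -/
theorem hp_Q {s : ℂ} (hs : 2 < s.re) {D j : ℕ} (hD : Cl D) (hj : D = 1 + 4 * j) :
    HasProd (fun p : Nat.Primes => EF (∏ q ∈ D.primeFactors, qch q (p : ℕ)) s p)
      ((EX ℚ (j : ℚ)).LSeries s) := by
  classical
  let L := CyclotomicField 1 ℚ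
  have hcyc : IsCyclotomicExtension {1} ℚ L := CyclotomicField.isCyclotomicExtension _ ℚ
  have h0 : PS (∅ : Finset ℕ) := fun q hq => absurd hq (Finset.notMem_empty q)
  have h := hp_K 1 L h0 (by rw [dd_eq, Finset.prod_empty]) (X := {∅})
    (fun T hT => by rw [Finset.mem_singleton.1 hT]) (Finset.mem_singleton_self _)
    (fun S hS T hT => by
      rw [Finset.mem_singleton.1 hS, Finset.mem_singleton.1 hT, Finset.mem_singleton]
      exact symmDiff_self _)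
    (fun q hq => absurd hq (Finset.notMem_empty q)) (⊥ : IntermediateField ℚ L)
    (fun T hT => ⟨1, one_mem _, by
      rw [Finset.mem_singleton.1 hT, h0.disc]
      simp⟩) bot_le ℚ (IntermediateField.botEquiv ℚ L) hs hD hj
  refine (congrArg (fun g => HasProd g _) (funext fun p => ?_)).mp h
  rw [Finset.prod_singleton]
  have hb : (∅ : Finset ℕ) ∆ D.primeFactors = D.primeFactors := bot_symmDiff _
  rw [hb]

/-- the twist of `E_D` by the product of the elements of `T` -/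
def twn (T : Finset ℕ) (D : ℕ) : ℕ := ∏ q ∈ T ∆ D.primeFactors, q

lemma cl_twn {T : Finset ℕ} (hT : PS T) {D : ℕ} (hD : Cl D) :
    Cl (twn T D) ∧ (twn T D).primeFactors = T ∆ D.primeFactors := (hT.symm hD.ps).cl

/-- **the L-function over `F` is the product of the L-functions of the twists** -/
theorem lseries_F {S : Finset ℕ} (hS : ∀ m ∈ S, Cl m) (F : IntermediateField ℚ ℂ) (hF : F = mqn S)
    [NumberField F] {D j : ℕ} (hD : Cl D) (hj : D = 1 + 4 * j) {s : ℂ} (hs : 2 < s.re) :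
    (EX F (j : F)).LSeries s =
      ∏ T ∈ XF F (S0 S), (EX ℚ (((twn T D) / 4 : ℕ) : ℚ)).LSeries s := by
  classical
  have hn0 : NeZero (dd (S0 S)) := ⟨dd_ne_zero fun q hq => (ps_S0 hS q hq).1⟩
  let L := CyclotomicField (dd (S0 S)) ℚ
  have hcyc : IsCyclotomicExtension {dd (S0 S)} ℚ L := CyclotomicField.isCyclotomicExtension _ ℚ
  let φ : L →ₐ[ℚ] ℂ := IsAlgClosed.lift
  obtain ⟨e⟩ := exists_iso hS F hF (dd (S0 S)) L φ dvd_rfl
  have h1 := hp_K (dd (S0 S)) L (ps_S0 hS) rfl (fun T hT => (mem_XF.1 hT).1) (XF_empty hS F)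
    (XF_symm hS F) (fun q hq => by
      obtain ⟨m, hm, h⟩ := Finset.mem_biUnion.1 hq
      exact ⟨_, sq_mem hS F hF hm, h⟩) (F.comap φ) (comap_hF1 hS F hF _ L φ dvd_rfl)
    (comap_le hS F hF _ L φ dvd_rfl) F e hs hD hj
  have h2 : HasProd (fun p : Nat.Primes => ∏ T ∈ XF F (S0 S),
      EF (∏ q ∈ T ∆ D.primeFactors, qch q (p : ℕ)) s p)
      (∏ T ∈ XF F (S0 S), (EX ℚ (((twn T D) / 4 : ℕ) : ℚ)).LSeries s) := by
    refine hasProd_prod fun T hT => ?_
    have hTp := (ps_S0 hS).mono (mem_XF.1 hT).1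
    obtain ⟨h3, h4⟩ := cl_twn hTp hD
    have h5 : twn T D = 1 + 4 * (twn T D / 4) := by
      have := (hTp.symm hD.ps).mod
      have h6 : twn T D % 4 = 1 := this
      omega
    have h6 := hp_Q hs h3 h5
    rw [h4] at h6
    exact h6
  exact h1.unique h2

end Pool.Agent.V5helper50.MQ
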