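import Pool.Agent.Y698.SG.Az

/-!
# The local factors of isomorphic curves with good reduction

The statements of `Pool/Agent/Y698/Lf.lean` for a curve which becomes an integral curve with a unit
discriminant after a change of variables.
-/

set_option autoImplicit false
set_option linter.unusedSectionVars false

namespace Pool.Agent.V5helper50.MQ

open Pool.Agent.Y698 Pool.Agent.Y698.SG
open NumberField IsDedekindDomain WeierstrassCurve Pool.Agent.W189.NF IsCyclotomicExtension.Rat
open Pool.Agent.H921R2.TatePole Pool.Agent.H82R3.EK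
open W165.CE (pw pw_eq pw_luc)

section Local

variable (R : Type) [CommRing R] [IsDomain R] [IsDiscreteValuationRing R] {L : Type}
  [Field L] [Algebra R L] [IsFractionRing R L]

open IsDiscreteValuationRing

/-- a curve isomorphic to an integral curve with a unit discriminant -/
theorem min_good' {W₀ : WeierstrassCurve R} (hΔ : IsUnit W₀.Δ) {W : WeierstrassCurve L}
    {C₁ : VariableChange L} (hW : C₁ • W = W₀.map (algebraMap R L)) :
    (W.minimal R).HasGoodReduction R := by
  have hWint : IsIntegral R (C₁ • W) := ⟨⟨W₀, hW⟩⟩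
  have hvW : (maximalIdeal R).valuation L (C₁ • W).Δ = 1 := by
    rw [hW, map_Δ]
    exact v_unit R hΔ
  obtain ⟨C, hC⟩ : ∃ C : VariableChange L, W.minimal R = C • W := ⟨_, rfl⟩
  have hmin : IsMinimal R (W.minimal R) := inferInstance
  refine ⟨?_⟩
  obtain ⟨h1, h2⟩ := hmin.val_Δ_maximal
  have e1 : (C₁ * C⁻¹) • W.minimal R = C₁ • W := by rw [hC, mul_smul, inv_smul_smul]
  have h3 := h2 (j := C₁ * C⁻¹) (by simp only [e1]; exact hWint)
  simp only [e1, one_smul] at h3
  have hle : valuation_Δ_aux R (W.minimal R) ≤ valuation_Δ_aux R (C₁ • W) := by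
    rw [← Subtype.coe_le_coe, valuation_Δ_aux_eq_of_isIntegral R (C₁ • W), hvW]
    exact (valuation_Δ_aux R (W.minimal R)).2
  have h4 := le_antisymm hle (h3 hle)
  have h5 := congrArg Subtype.val h4
  rw [valuation_Δ_aux_eq_of_isIntegral, valuation_Δ_aux_eq_of_isIntegral] at h5
  rw [h5]
  exact hvW

/-- the local factor at a place of good reduction -/
theorem min_count' {W₀ : WeierstrassCurve R} (hΔ : IsUnit W₀.Δ) {W : WeierstrassCurve L}
    {C₁ : VariableChange L} (hW : C₁ • W = W₀.map (algebraMap R L))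
    [Finite (IsLocalRing.ResidueField R)] :
    aLoc R W = (Nat.card (IsLocalRing.ResidueField R) : ℤ) -
      Nat.card (AP (W₀.map (IsLocalRing.residue R))) ∧
    eLoc R W = Nat.card (IsLocalRing.ResidueField R) := by
  have hg := min_good' R hΔ hW
  unfold aLoc eLoc
  rw [if_pos hg, if_pos hg]
  refine ⟨?_, rfl⟩
  obtain ⟨C, hC⟩ : ∃ C : VariableChange L, W.minimal R = C • W := ⟨_, rfl⟩
  have h1 : ((W.minimal R).integralModel R).map (algebraMap R L) =
      (C * C₁⁻¹) • W₀.map (algebraMap R L) := by
    have := baseChange_integralModel_eq R (W.minimal R)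
    rw [← hW, mul_smul, inv_smul_smul, ← hC]
    exact this
  have h2 : IsUnit ((W.minimal R).integralModel R).Δ := by
    have h3 := hg.goodReduction
    rw [← integralModel_Δ_eq R (W.minimal R),
      IsDedekindDomain.HeightOneSpectrum.valuation_eq_one_iff_notMem] at h3
    by_contra h4
    exact h3 ((IsLocalRing.mem_maximalIdeal _).2 h4)
  obtain ⟨C₀, hC₀⟩ := vc_int R hΔ h2 h1
  have h3 : (W.minimal R).reduction R = (C₀.map (IsLocalRing.residue R)) •
      (W₀.map (IsLocalRing.residue R)) := by
    unfold WeierstrassCurve.reduction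
    rw [hC₀, ← WeierstrassCurve.map_variableChange]
  have h4 : ((W.minimal R).reduction R).Δ ≠ 0 := by
    unfold WeierstrassCurve.reduction
    rw [map_Δ]
    exact (h2.map _).ne_zero
  rw [card_point _ h4, h3, Nat.card_congr (AP_equiv _ _)]
  push_cast
  ring

end Local

/-- the change of variables between two twists whose quotient is a square -/
def vch {k : Type*} [Field k] (z : k) (hz : z ≠ 0) : VariableChange k :=
  ⟨(Units.mk0 z hz)⁻¹, 0, (z⁻¹ - 1) / 2, 0⟩

lemma vch_smul {k : Type*} [Field k] (h2 : (2 : k) ≠ 0) {z : k} (hz : z ≠ 0) {j i : k}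
    (h : 1 + 4 * i = z ^ 2 * (1 + 4 * j)) : vch z hz • EX k j = EX k i := by
  have h4 : (4 : k) ≠ 0 := by
    rw [show (4 : k) = 2 * 2 by norm_num]
    exact mul_ne_zero h2 h2
  have hi : i = (z ^ 2 * (1 + 4 * j) - 1) / 4 := by
    field_simp
    linear_combination h
  subst hi
  unfold vch EX
  ext
  · simp only [variableChange_a₁]
    simp
    field_simp
    ring
  · simp only [variableChange_a₂]
    simp
    field_simp
    ring
  · simp only [variableChange_a₃]
    simp
  · simp only [variableChange_a₄]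
    simp
    field_simp
    ring
  · simp only [variableChange_a₆]
    simp
    field_simp
    ring

section
variable {K : Type} [Field K] [NumberField K]

/-- the primes different from the residue characteristic are units -/
lemma unit_ne (v : HeightOneSpectrum (𝓞 K)) {p : ℕ} (hp : p.Prime) (hne : (below v : ℕ) ≠ p) :
    IsUnit ((p : ℕ) : Ov v) := by
  obtain ⟨n1, n2, n3⟩ := nm_eq v
  by_contra hcon
  have h1 : IsLocalRing.residue (Ov v) ((p : ℕ) : Ov v) = 0 :=
    (IsLocalRing.residue_eq_zero_iff _).2 ((IsLocalRing.mem_maximalIdeal _).2 hcon)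
  rw [map_natCast] at h1
  have hfin := finite_res v
  have hcard : Nat.card (IsLocalRing.ResidueField (Ov v)) = (below v : ℕ) ^ deg v := by
    rw [← n1]
    exact card_res v
  have h2 : ((below v : ℕ) : IsLocalRing.ResidueField (Ov v)) = 0 := by
    have h2 : ((Nat.card (IsLocalRing.ResidueField (Ov v)) : ℕ) :
        IsLocalRing.ResidueField (Ov v)) = 0 := by
      have := Fintype.ofFinite (IsLocalRing.ResidueField (Ov v))
      rw [Nat.card_eq_fintype_card]
      exact Nat.cast_card_eq_zero _
    rw [hcard] at h2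
    push_cast at h2
    exact (pow_eq_zero_iff n2.ne').1 h2
  have hcop : IsCoprime ((below v : ℕ) : ℤ) (p : ℤ) :=
    Nat.isCoprime_iff_coprime.2 ((Nat.coprime_primes (below v).2 hp).2 hne)
  obtain ⟨s, t, hst⟩ := hcop
  have h3 := congrArg (fun z : ℤ => (z : IsLocalRing.ResidueField (Ov v))) hst
  push_cast at h3
  rw [h1, h2, mul_zero, mul_zero, add_zero] at h3
  exact zero_ne_one h3

/-- the local factors of two twists whose quotient is a square, if one of them has good reduction -/
theorem coeffs_iso (v : HeightOneSpectrum (𝓞 K)) {j : K} {U : Finset ℕ} (hU : ∀ q ∈ U, Gp q)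
    {i : ℕ} (hi : ∏ q ∈ U, q = 1 + 4 * i) (hvU : (below v : ℕ) ∉ U) (h7 : (below v : ℕ) ≠ 7)
    {z : K} (hz : z ≠ 0) (h : 1 + 4 * (i : K) = z ^ 2 * (1 + 4 * j)) :
    aV (EX K j) v = aV (EX K (i : K)) v ∧ eV (EX K j) v = eV (EX K (i : K)) v := by
  classical
  have hfin := finite_res v
  have hDu : IsUnit ((∏ q ∈ U, q : ℕ) : Ov v) := by
    have hDc2 : ((∏ q ∈ U, q : ℕ) : Ov v) = ∏ q ∈ U, (q : Ov v) := by
      push_cast
      rfl
    rw [hDc2]
    refine isUnit_fprod fun q hqU => unit_ne v (hU q hqU).pr ?_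
    intro h
    exact hvU (h ▸ hqU)
  have hDc : (1 + 4 * (i : Ov v)) = ((∏ q ∈ U, q : ℕ) : Ov v) := by
    rw [hi]
    push_cast
    rfl
  have hΔ : IsUnit (EX (Ov v) (i : Ov v)).Δ := by
    rw [EX_Δ, hDc]
    refine IsUnit.mul ?_ (hDu.pow 6)
    have e : (-343 : Ov v) = -(((7 : ℕ) : Ov v) ^ 3) := by norm_num
    rw [e]
    exact ((unit_ne v (by norm_num) h7).pow 3).neg
  have hmapj : (EX K j).baseChange (v.adicCompletion K) =
      EX (v.adicCompletion K) (algebraMap K (v.adicCompletion K) j) := EX_map _ _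
  have hWi : (EX K (i : K)).baseChange (v.adicCompletion K) =
      (EX (Ov v) (i : Ov v)).map (algebraMap (Ov v) (v.adicCompletion K)) := by
    rw [EX_map, map_natCast]
    have := EX_map (algebraMap K (v.adicCompletion K)) (i : K)
    rw [map_natCast] at this
    exact this
  set zz : v.adicCompletion K := algebraMap K (v.adicCompletion K) z with hzz
  have hzz0 : zz ≠ 0 := by
    rw [hzz]
    exact (map_ne_zero _).2 hz
  have h20 : (2 : v.adicCompletion K) ≠ 0 := by
    have h2K : (2 : K) ≠ 0 := two_ne_zero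
    have := (map_ne_zero (algebraMap K (v.adicCompletion K))).2 h2K
    rwa [map_ofNat] at this
  have hWj : vch zz hzz0 • (EX K j).baseChange (v.adicCompletion K) =
      (EX (Ov v) (i : Ov v)).map (algebraMap (Ov v) (v.adicCompletion K)) := by
    rw [hmapj, EX_map, map_natCast]
    refine vch_smul h20 hzz0 ?_
    have h3 := congrArg (algebraMap K (v.adicCompletion K)) h
    simp only [map_add, map_mul, map_pow, map_one, map_natCast, map_ofNat] at h3
    exact h3
  obtain ⟨a1, a2⟩ := min_count (v.adicCompletionIntegers K) hΔ hWi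
  obtain ⟨b1, b2⟩ := min_count' (v.adicCompletionIntegers K) hΔ hWj
  unfold aV eV
  exact ⟨by rw [a1, b1], by rw [a2, b2]⟩

end

end Pool.Agent.V5helper50.MQ
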