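import Pool.Agent.V5helper50.MQ.Eu
import Pool.Agent.Y682.XD.Alg
import Pool.Agent.Y888.XD.Qf
import Pool.Agent.Y421.XD.Rke
import Pool.Agent.Y51.XD.Deg2
import Pool.Agent.Y153.XD.Sq
import Pool.Agent.Y682.Rk
import Pool.Agent.Y698.SG.Cy

/-!
# The rank of the twists of `X_0(49)` over real multiquadratic fields
-/

set_option autoImplicit false
set_option linter.unusedSectionVars false

namespace Pool.Agent.V5helper50.MQ

open NumberField IsDedekindDomain WeierstrassCurve
open Pool.Agent.TH841.NF.D (rk)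
open Pool.Agent.Y682 (gc gc_isT fg_MP MP)
open Pool.Agent.Y698 (AX EX)
open scoped symmDiff

/-- positive with prime factors `1` modulo `4` -/
def Pr (m : ℕ) : Prop := m ≠ 0 ∧ ∀ p ∈ m.primeFactors, p % 4 = 1

lemma Cl.pr {D : ℕ} (h : Cl D) : Pr D := ⟨h.1.ne_zero, h.2⟩

lemma Pr.mul {a b : ℕ} (ha : Pr a) (hb : Pr b) : Pr (a * b) := by
  refine ⟨mul_ne_zero ha.1 hb.1, fun p hp => ?_⟩
  rw [Nat.primeFactors_mul ha.1 hb.1, Finset.mem_union] at hp
  rcases hp with h | h
  · exact ha.2 p h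
  · exact hb.2 p h

/-- the rank of the twist by `d` -/
noncomputable def R7 (F : Type) [Field F] [NumberField F] (d : ℤ) : ℕ :=
  rk (gc (21 * d) (112 * d ^ 2) F)

lemma dn {d : ℤ} (hd : d ≠ 0) : 112 * d ^ 2 ≠ 0 ∧ (21 * d) ^ 2 - 4 * (112 * d ^ 2) ≠ 0 := by
  have h2 : d ^ 2 ≠ 0 := pow_ne_zero 2 hd
  refine ⟨mul_ne_zero (by norm_num) h2, ?_⟩
  have e1 : (21 * d) ^ 2 - 4 * (112 * d ^ 2) = -7 * d ^ 2 := by ring
  rw [e1]
  exact mul_ne_zero (by norm_num) h2

lemma R7_iso {K K' : Type} [Field K] [NumberField K] [Field K'] [NumberField K']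
    (e : K ≃+* K') {d : ℤ} (hd : d ≠ 0) : R7 K d = R7 K' d :=
  Pool.Agent.Y421.XD.s_rke K K' e _ _ (dn hd).1 (dn hd).2

lemma R7_sq (K : Type) [Field K] [NumberField K] {d g : ℤ} (hd : d ≠ 0) (hg : g ≠ 0) :
    R7 K (d * g ^ 2) = R7 K d := by
  have h := Pool.Agent.Y153.XD.s_sq K (21 * d) (112 * d ^ 2) g (dn hd).1 (dn hd).2 hg
  unfold R7
  rw [← h]
  congr 2
  · ring
  · ring

/-- the quadratic formula -/
lemma R7_quad (F F' : IntermediateField ℚ ℂ) [NumberField F]
    [NumberField F'] {z : ℂ} {d : ℤ} (hd : d ≠ 0) (hz : z ∉ F) (hz2 : z ^ 2 = (d : ℂ))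
    (hF' : F' = F ⊔ IntermediateField.adjoin ℚ {z}) {c : ℤ} (hc : c ≠ 0) :
    R7 F' c = R7 F c + R7 F (c * d) := by
  have hle : F ≤ F' := by rw [hF']; exact le_sup_left
  have hzF' : z ∈ F' := by
    rw [hF']
    exact (le_sup_right : _ ≤ F ⊔ IntermediateField.adjoin ℚ {z})
      (IntermediateField.mem_adjoin_simple_self ℚ z)
  let _ : Algebra F F' := (IntermediateField.inclusion hle).toRingHom.toAlgebra
  have h3 := Pool.Agent.Y888.XD.s_qf F F' (21 * c) (112 * c ^ 2) d (⟨z, hzF'⟩ : F') (dn hc).1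
    (dn hc).2 hd (Subtype.ext (by
      show z ^ 2 = _
      rw [hz2]
      rfl)) (Pool.Agent.Y51.XD.s_deg2 F F' z d hz hz2 hle hF') (by
      intro x hx
      apply hz
      have h4 := congrArg (fun y : F' => (y : ℂ)) hx
      have h5 : (x : ℂ) = z := h4
      rw [← h5]
      exact x.2)
  unfold R7
  rw [h3]
  congr 2
  · congr 1
    · ring
    · ring

lemma mqn_empty : mqn ∅ = ⊥ := by
  unfold mqn
  rw [IntermediateField.adjoin_eq_bot_iff]
  rintro z ⟨d, hd, -⟩
  exact absurd hd (Finset.notMem_empty d)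

lemma mqn_insert (S : Finset ℕ) (d : ℕ) {z : ℂ} (hz : z ^ 2 = (d : ℂ)) :
    mqn (insert d S) = mqn S ⊔ IntermediateField.adjoin ℚ {z} := by
  apply le_antisymm
  · unfold mqn
    rw [IntermediateField.adjoin_le_iff]
    rintro w ⟨e, he, hw⟩
    rcases Finset.mem_insert.1 he with rfl | he
    · have h1 : z ∈ IntermediateField.adjoin ℚ {z} := IntermediateField.mem_adjoin_simple_self ℚ z
      have h2 : w ∈ IntermediateField.adjoin ℚ {z} := by
        rcases sq_eq_sq_iff_eq_or_eq_neg.1 (hw.trans hz.symm) with h | h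
        · rw [h]; exact h1
        · rw [h]; exact neg_mem h1
      exact (le_sup_right : _ ≤ (IntermediateField.adjoin ℚ {z : ℂ | ∃ d ∈ S, z ^ 2 = (d : ℂ)}) ⊔ _) h2
    · exact (le_sup_left : (IntermediateField.adjoin ℚ {z : ℂ | ∃ d ∈ S, z ^ 2 = (d : ℂ)}) ≤ _ ⊔
        IntermediateField.adjoin ℚ {z}) (IntermediateField.subset_adjoin ℚ _ ⟨e, he, hw⟩)
  · refine sup_le ?_ ?_
    · unfold mqn
      refine IntermediateField.adjoin.mono ℚ _ _ ?_
      rintro w ⟨e, he, hw⟩
      exact ⟨e, Finset.mem_insert_of_mem he, hw⟩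
    · rw [IntermediateField.adjoin_simple_le_iff]
      exact IntermediateField.subset_adjoin ℚ _ ⟨d, Finset.mem_insert_self _ _, hz⟩

theorem fin_mqn (S : Finset ℕ) : FiniteDimensional ℚ (mqn S) := by
  classical
  induction S using Finset.induction_on with
  | empty => rw [mqn_empty]; infer_instance
  | insert d S hdS ih =>
    obtain ⟨z, hz⟩ : ∃ z : ℂ, z ^ 2 = (d : ℂ) := IsAlgClosed.exists_pow_nat_eq _ (by norm_num)
    rw [mqn_insert S d hz]
    have : FiniteDimensional ℚ (IntermediateField.adjoin ℚ {z} : IntermediateField ℚ ℂ) :=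
      IntermediateField.adjoin.finiteDimensional ⟨Polynomial.X ^ 2 - Polynomial.C (d : ℚ),
        Polynomial.monic_X_pow_sub_C _ (by norm_num), by
          rw [Polynomial.eval₂_sub, Polynomial.eval₂_pow, Polynomial.eval₂_X,
            Polynomial.eval₂_C, hz, map_natCast, sub_self]⟩
    exact IntermediateField.finiteDimensional_sup _ _

/-- the rank zero over the multiquadratic field -/
theorem rank0 (S : Finset ℕ) : (∀ d ∈ S, Pr d) → ∀ (F : IntermediateField ℚ ℂ) [NumberField F],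
    F = mqn S → ∀ c : ℤ, c ≠ 0 → (∀ m : ℕ, Pr m → Sq F m → R7 ℚ (m * c) = 0) → R7 F c = 0 := by
  classical
  induction S using Finset.induction_on with
  | empty =>
    intro _ F _ hF c hc h
    rw [mqn_empty] at hF
    subst hF
    have hq : R7 ℚ c = R7 (⊥ : IntermediateField ℚ ℂ) c :=
      R7_iso (IntermediateField.botEquiv ℚ ℂ).symm.toRingEquiv hc
    rw [← hq]
    have h1 := h 1 ⟨one_ne_zero, by simp⟩ (sq_one _)
    rwa [Nat.cast_one, one_mul] at h1
  | insert d S hdS ih =>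
    intro hS F _ hF c hc h
    have ih' := ih (fun e he => hS e (Finset.mem_insert_of_mem he))
    have hd := hS d (Finset.mem_insert_self _ _)
    obtain ⟨z, hz⟩ : ∃ z : ℂ, z ^ 2 = (d : ℂ) := IsAlgClosed.exists_pow_nat_eq _ (by norm_num)
    have hins := mqn_insert S d hz
    have hfd := fin_mqn S
    have hG₀ : NumberField (mqn S) := { to_charZero := inferInstance, to_finiteDimensional := hfd }
    by_cases hz0 : z ∈ mqn S
    · have hins' : mqn (insert d S) = mqn S := by
        rw [hins]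
        exact sup_eq_left.2 ((IntermediateField.adjoin_simple_le_iff).2 hz0)
      exact ih' F (hF.trans hins') c hc h
    · have hle : mqn S ≤ F := by rw [hF, hins]; exact le_sup_left
      have hzF : z ∈ F := by
        rw [hF, hins]
        exact (le_sup_right : _ ≤ mqn S ⊔ IntermediateField.adjoin ℚ {z})
          (IntermediateField.mem_adjoin_simple_self ℚ z)
      have hd0 : (d : ℤ) ≠ 0 := by exact_mod_cast hd.1
      rw [R7_quad (mqn S) F (d := (d : ℤ)) hd0 hz0 (by rw [hz]; push_cast; rfl) (hF.trans hins) hc,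
        ih' (mqn S) rfl c hc fun m hm hsq => ?_, ih' (mqn S) rfl (c * d) (mul_ne_zero hc hd0)
          fun m hm hsq => ?_]
      · obtain ⟨w, hw, hw2⟩ := hsq
        have h1 := h (m * d) (hm.mul hd) ⟨w * z, mul_mem (hle hw) hzF, by
          rw [mul_pow, hw2, hz]; push_cast; rfl⟩
        rw [← h1]
        congr 1
        push_cast
        ring
      · obtain ⟨w, hw, hw2⟩ := hsq
        exact h m hm ⟨w, hle hw, hw2⟩

/-- the rank zero over the multiquadratic field -/
theorem rank0_F {S : Finset ℕ} (hS : ∀ m ∈ S, Cl m) (F : IntermediateField ℚ ℂ) (hF : F = mqn S)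
    [NumberField F] {D : ℕ} (hD : Cl D)
    (h : ∀ T ∈ XF F (S0 S), R7 ℚ (twn T D) = 0) : R7 F D = 0 := by
  classical
  refine rank0 S (fun m hm => (hS m hm).pr) F hF D (by exact_mod_cast hD.1.ne_zero)
    fun m hm hsq => ?_
  obtain ⟨a, b, hab, ha⟩ := Nat.sq_mul_squarefree m
  have hb0 : b ≠ 0 := by
    rintro rfl
    apply hm.1
    rw [← hab]; simp
  have hac : Cl a := by
    refine ⟨ha, fun p hp => hm.2 p ?_⟩
    rw [Nat.mem_primeFactors] at hp ⊢
    refine ⟨hp.1, ?_, hm.1⟩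
    rw [← hab]
    exact dvd_mul_of_dvd_right hp.2.1 _
  have hsa : Sq F a := by
    obtain ⟨w, hw, hw2⟩ := hsq
    have hbC : (b : ℂ) ≠ 0 := Nat.cast_ne_zero.2 hb0
    refine ⟨w / (b : ℂ), div_mem hw (natCast_mem F b), ?_⟩
    rw [div_pow, hw2, div_eq_iff (pow_ne_zero 2 hbC), ← hab]
    push_cast
    ring
  have hT := (sq_iff hS F hF hac).1 hsa
  have h1 := h _ hT
  -- the squarefree part of `a D`
  have hI0 : (∏ q ∈ a.primeFactors ∩ D.primeFactors, q : ℕ) ≠ 0 :=
    Finset.prod_ne_zero_iff.2 fun q hq => (hac.ps q (Finset.mem_inter.1 hq).1).1.ne_zero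
  have hpr : twn a.primeFactors D * (∏ q ∈ a.primeFactors ∩ D.primeFactors, q) ^ 2 = a * D := by
    have e0 : (∏ q ∈ D.primeFactors, q) = D := hD.prod
    have e00 : (∏ q ∈ a.primeFactors, q) = a := hac.prod
    have e1 : ∏ q ∈ a.primeFactors, q = (∏ q ∈ a.primeFactors \ D.primeFactors, q) *
        ∏ q ∈ a.primeFactors ∩ D.primeFactors, q := by
      rw [mul_comm]; exact (Finset.prod_inter_mul_prod_sdiff a.primeFactors D.primeFactors _).symm
    have e2 : ∏ q ∈ D.primeFactors, q =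
        (∏ q ∈ D.primeFactors \ a.primeFactors, q) * ∏ q ∈ a.primeFactors ∩ D.primeFactors, q := by
      rw [mul_comm, Finset.inter_comm]
      exact (Finset.prod_inter_mul_prod_sdiff D.primeFactors a.primeFactors _).symm
    have e3 : twn a.primeFactors D = (∏ q ∈ a.primeFactors \ D.primeFactors, q) *
        ∏ q ∈ D.primeFactors \ a.primeFactors, q := by
      have : a.primeFactors ∆ D.primeFactors = (a.primeFactors \ D.primeFactors) ∪
        (D.primeFactors \ a.primeFactors) := rfl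
      unfold twn
      rw [this, Finset.prod_union disjoint_sdiff_sdiff]
    calc twn a.primeFactors D * (∏ q ∈ a.primeFactors ∩ D.primeFactors, q) ^ 2 =
        ((∏ q ∈ a.primeFactors \ D.primeFactors, q) * ∏ q ∈ a.primeFactors ∩ D.primeFactors, q) *
          ((∏ q ∈ D.primeFactors \ a.primeFactors, q) *
            ∏ q ∈ a.primeFactors ∩ D.primeFactors, q) := by rw [e3]; ring
      _ = a * D := by rw [← e1, ← e2, e0, e00]
  have ht0 : (twn a.primeFactors D : ℤ) ≠ 0 := by
    exact_mod_cast (cl_twn hac.ps hD).1.1.ne_zero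
  have hg0 : (((∏ q ∈ a.primeFactors ∩ D.primeFactors, q) * b : ℕ) : ℤ) ≠ 0 := by
    exact_mod_cast mul_ne_zero hI0 hb0
  have h2 := R7_sq ℚ ht0 hg0
  rw [h1] at h2
  rw [← h2]
  congr 1
  have h3 : ((m : ℤ)) = (b : ℤ) ^ 2 * a := by exact_mod_cast hab.symm
  have h4 : (twn a.primeFactors D : ℤ) * ((∏ q ∈ a.primeFactors ∩ D.primeFactors, q : ℕ) : ℤ) ^ 2 =
      a * D := by exact_mod_cast hpr
  rw [h3]
  push_cast at h4 ⊢
  linear_combination (-(b : ℤ) ^ 2) * h4

section
variable (K : Type) [Field K] [NumberField K] {D j : ℕ}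

lemma wf_gc (a b : ℤ) : Pool.Agent.Y698.SG.Cv.WF K a b = gc a b K := rfl

/-- the isomorphism of the groups of the points -/
lemma exists_eqv (hD : D = 1 + 4 * j) : Nonempty
    (@AddEquiv (AX K j).toAffine.Point (MP (gc (21 * (D : ℤ)) (112 * (D : ℤ) ^ 2) K))
      (@Affine.Point.instAddCommGroup K _ (AX K j).toAffine (Classical.decEq K)).toAdd _) := by
  classical
  subst hD
  have h1 := Pool.Agent.Y698.SG.vr_AX K j
  have h2 := Pool.Agent.Y698.SG.AX_ne K j
  exact ⟨@Pool.Agent.Y700.VR.equiv K _ (Classical.decEq K) _ _ _ _ _ _ h1 h2⟩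

open Classical in
/-- the rank of the curve -/
lemma rk_AX (hD : D = 1 + 4 * j) :
    Module.finrank ℤ (AX K j).toAffine.Point = R7 K D := by
  obtain ⟨e⟩ := exists_eqv K hD
  have h3 := e.toIntLinearEquiv.finrank_eq
  have h4 : R7 K D = Module.finrank ℤ (MP (gc (21 * (D : ℤ)) (112 * (D : ℤ) ^ 2) K)) := rfl
  rw [h4, ← h3]


lemma fin_iff (hD : D = 1 + 4 * j) :
    Finite (AX K j).toAffine.Point ↔ R7 K D = 0 := by
  classical
  obtain ⟨e⟩ := exists_eqv K hD
  have hd : (D : ℤ) ≠ 0 := by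
    rw [hD]
    push_cast
    omega
  have hfg : Module.Finite ℤ (MP (gc (21 * (D : ℤ)) (112 * (D : ℤ) ^ 2) K)) :=
    fg_MP (gc_isT (dn hd).1 (dn hd).2 K)
  have h4 : R7 K D = Module.finrank ℤ (MP (gc (21 * (D : ℤ)) (112 * (D : ℤ) ^ 2) K)) := rfl
  rw [h4]
  constructor
  · intro h
    have h5 : Finite (MP (gc (21 * (D : ℤ)) (112 * (D : ℤ) ^ 2) K)) := Finite.of_equiv _ e.toEquiv
    refine Module.IsTorsion.finrank_eq_zero ?_
    intro x
    refine ⟨⟨(addOrderOf x : ℤ), mem_nonZeroDivisors_of_ne_zero ?_⟩, ?_⟩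
    · exact_mod_cast (addOrderOf_pos x).ne'
    · show (addOrderOf x : ℤ) • x = 0
      rw [natCast_zsmul]
      exact addOrderOf_nsmul_eq_zero x
  · intro h
    have h5 := Module.finite_of_fg_torsion _ (Module.finrank_eq_zero_iff_isTorsion.1 h)
    exact Finite.of_equiv _ e.toEquiv.symm

end

end Pool.Agent.V5helper50.MQ
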